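import Pool.Agent.Helper69.CX.Conn

/-!
# Kernel-fast checks of the combinatorial structure
-/

namespace Helper69.CX

/-- Radix sort of a list of numbers less than `2 ^ k`. -/
def radix : Nat → List Nat → List Nat
  | _, [] => []
  | _, [x] => [x]
  | 0, l => l
  | k + 1, x :: y :: l =>
    radix k ((x :: y :: l).filter fun z => !(z.testBit k)) ++
      radix k ((x :: y :: l).filter fun z => z.testBit k)

theorem radix_perm (k : Nat) (l : List Nat) : (radix k l).Perm l := by
  induction k generalizing l with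
  | zero =>
    rcases l with _ | ⟨x, _ | ⟨y, l⟩⟩ <;> simp [radix]
  | succ k ih =>
    rcases l with _ | ⟨x, _ | ⟨y, l⟩⟩
    · simp [radix]
    · simp [radix]
    · rw [radix]
      refine ((ih _).append (ih _)).trans ?_
      refine List.perm_append_comm.trans ?_
      exact List.filter_append_perm _ _

/-- The sorted list consists of pairs `2 k, 2 k + 1` with increasing `k`. -/
def chkPairs : Nat → List Nat → Bool
  | _, [] => true
  | _, [_] => false
  | p, x :: y :: l => (x % 2 == 0) && (y == x + 1) && Nat.ble p x && chkPairs (y + 1) l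

theorem chkPairs_spec (p : Nat) (l : List Nat) (h : chkPairs p l = true) :
    ∃ ks : List Nat, ks.Pairwise (· < ·) ∧ (∀ k ∈ ks, p ≤ 2 * k) ∧
      l = ks.flatMap fun k => [2 * k, 2 * k + 1] := by
  induction l using List.twoStepInduction generalizing p with
  | nil => exact ⟨[], List.Pairwise.nil, by simp, rfl⟩
  | singleton x => simp [chkPairs] at h
  | cons_cons x y l ih _ =>
    rw [chkPairs] at h
    simp only [Bool.and_eq_true, beq_iff_eq, Nat.ble_eq] at h
    obtain ⟨⟨⟨h1, h2⟩, h3⟩, h4⟩ := h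
    obtain ⟨ks, hk1, hk2, hk3⟩ := ih (y + 1) h4
    refine ⟨(x / 2) :: ks, List.pairwise_cons.2 ⟨fun k hk => ?_, hk1⟩, ?_, ?_⟩
    · have := hk2 k hk
      omega
    · intro k hk
      rcases List.mem_cons.1 hk with rfl | hk
      · omega
      · have := hk2 k hk
        omega
    · rw [List.flatMap_cons, ← hk3]
      have h5 : 2 * (x / 2) = x := by omega
      rw [h5, ← h2]
      rfl

/-- The code of a signed triangle. -/
def code (B : Nat) (f : SF Nat) : Nat :=
  2 * ((f.2.1 * B + f.2.2.1) * B + f.2.2.2) + cond f.1 1 0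

/-- The triangle with a given key. -/
def dk (B k : Nat) : Nat × Nat × Nat := (k / B / B, k / B % B, k % B)

/-- The signed triangle with a given code. -/
def dec (B c : Nat) : SF Nat := (c % 2 == 1, dk B (c / 2))

theorem dec_code {B : Nat} {f : SF Nat} (h1 : f.2.2.1 < B) (h2 : f.2.2.2 < B) :
    dec B (code B f) = f := by
  obtain ⟨s, x, y, z⟩ := f
  have hB : 0 < B := by omega
  have e1 : code B (s, x, y, z) / 2 = (x * B + y) * B + z := by
    unfold code
    cases s
    · simp
    · simp
      omega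
  have e2 : (code B (s, x, y, z) % 2 == 1) = s := by
    unfold code
    cases s
    · simp
    · simp
  have e3 : ((x * B + y) * B + z) / B = x * B + y := by
    rw [Nat.add_comm, Nat.add_mul_div_right _ _ hB, Nat.div_eq_of_lt h2, Nat.zero_add]
  have e4 : ((x * B + y) * B + z) % B = z := by
    rw [Nat.add_comm, Nat.add_mul_mod_self_right, Nat.mod_eq_of_lt h2]
  have e5 : (x * B + y) / B = x := by
    rw [Nat.add_comm, Nat.add_mul_div_right _ _ hB, Nat.div_eq_of_lt h1, Nat.zero_add]
  have e6 : (x * B + y) % B = y := by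
    rw [Nat.add_comm, Nat.add_mul_mod_self_right, Nat.mod_eq_of_lt h1]
  unfold dec dk
  rw [e1, e2, e3, e4, e5, e6]

theorem dec_pair (B k : Nat) : dec B (2 * k) = (false, dk B k) ∧ dec B (2 * k + 1) = (true, dk B k) := by
  constructor
  · unfold dec
    have h1 : (2 * k) % 2 = 0 := by omega
    have h2 : (2 * k) / 2 = k := by omega
    rw [h1, h2]
    rfl
  · unfold dec
    have h1 : (2 * k + 1) % 2 = 1 := by omega
    have h2 : (2 * k + 1) / 2 = k := by omega
    rw [h1, h2]
    rfl

theorem dk_injective (B : Nat) : Function.Injective (dk B) := by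
  intro k k' h
  unfold dk at h
  simp only [Prod.mk.injEq] at h
  obtain ⟨h1, h2, h3⟩ := h
  have e1 : k / B = k' / B := by
    rw [← Nat.div_add_mod (k / B) B, ← Nat.div_add_mod (k' / B) B, h1, h2]
  rw [← Nat.div_add_mod k B, ← Nat.div_add_mod k' B, e1, h3]

/-- The range and the order of the vertices. -/
def chkIncr (n : Nat) (T : List (ST Nat)) : Bool :=
  T.all fun t => Nat.blt t.2.1 t.2.2.1 && Nat.blt t.2.2.1 t.2.2.2.1 &&
    Nat.blt t.2.2.2.1 t.2.2.2.2 && Nat.blt t.2.2.2.2 n

/-- The codes of the faces. -/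
def fcodes (B : Nat) (T : List (ST Nat)) : List Nat := T.flatMap fun t => (faces t).map (code B)

/-- The pairing of the faces. -/
def chkFaces (B bits : Nat) (T : List (ST Nat)) : Bool := chkPairs 0 (radix bits (fcodes B T))

theorem chkIncr_spec {n : Nat} {T : List (ST Nat)} (h : chkIncr n T = true) :
    ∀ t ∈ T, t.2.1 < t.2.2.1 ∧ t.2.2.1 < t.2.2.2.1 ∧ t.2.2.2.1 < t.2.2.2.2 ∧ t.2.2.2.2 < n := by
  intro t ht
  unfold chkIncr at h
  rw [List.all_eq_true] at h
  have := h t ht
  simp only [Bool.and_eq_true, Nat.blt_eq] at this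
  tauto

theorem face_lt {n : Nat} {t : ST Nat}
    (h : t.2.1 < t.2.2.1 ∧ t.2.2.1 < t.2.2.2.1 ∧ t.2.2.2.1 < t.2.2.2.2 ∧ t.2.2.2.2 < n)
    {f : SF Nat} (hf : f ∈ faces t) : f.2.1 < n ∧ f.2.2.1 < n ∧ f.2.2.2 < n := by
  obtain ⟨s, a, b, c, d⟩ := t
  obtain ⟨h1, h2, h3, h4⟩ := h
  simp only [faces, List.mem_cons, List.not_mem_nil, or_false] at hf
  simp only at h1 h2 h3 h4
  rcases hf with rfl | rfl | rfl | rfl <;> simp only <;> omega

/-- The pairing of the faces, for natural numbers. -/
theorem chkFaces_spec {n B bits : Nat} {T : List (ST Nat)} (hn : n ≤ B) (h0 : chkIncr n T = true)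
    (h : chkFaces B bits T = true) : ∃ ks : List (Nat × Nat × Nat), ks.Nodup ∧
      (T.flatMap faces).Perm (ks.flatMap fun k => [(false, k), (true, k)]) := by
  obtain ⟨ks, hk1, _, hk3⟩ := chkPairs_spec _ _ h
  refine ⟨ks.map (dk B), ?_, ?_⟩
  · refine List.Nodup.map (dk_injective B) ?_
    exact hk1.imp (fun h => ne_of_lt h)
  · have e1 : (fcodes B T).map (dec B) = T.flatMap faces := by
      unfold fcodes
      rw [List.map_flatMap]
      apply List.flatMap_congr
      intro t ht
      rw [List.map_map]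
      conv_rhs => rw [← List.map_id (faces t)]
      apply List.map_congr_left
      intro f hf
      have := face_lt (chkIncr_spec h0 t ht) hf
      exact dec_code (by omega) (by omega)
    rw [← e1]
    refine ((radix_perm bits (fcodes B T)).symm.map (dec B)).trans ?_
    rw [hk3, List.map_flatMap, List.flatMap_map]
    apply List.Perm.of_eq
    apply List.flatMap_congr
    intro k _
    simp [dec_pair]

/-- Two tetrahedra have a common face. -/
def adjB (t t' : ST Nat) : Bool :=
  (faces t).any fun f => (faces t').any fun f' =>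
    Nat.beq f.2.1 f'.2.1 && Nat.beq f.2.2.1 f'.2.2.1 && Nat.beq f.2.2.2 f'.2.2.2

theorem adjB_spec {t t' : ST Nat} (h : adjB t t' = true) : Adj t t' := by
  unfold adjB at h
  rw [List.any_eq_true] at h
  obtain ⟨f, hf, h⟩ := h
  rw [List.any_eq_true] at h
  obtain ⟨f', hf', h⟩ := h
  simp only [Bool.and_eq_true] at h
  obtain ⟨⟨h1, h2⟩, h3⟩ := h
  refine ⟨f.1, f'.1, f.2, hf, ?_⟩
  have : f.2 = f'.2 := Prod.ext (Nat.eq_of_beq_eq_true h1)
    (Prod.ext (Nat.eq_of_beq_eq_true h2) (Nat.eq_of_beq_eq_true h3))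
  rw [this]
  exact hf'

theorem Adj.symm {V : Type*} {t t' : ST V} (h : Adj t t') : Adj t' t := by
  obtain ⟨s, s', k, h1, h2⟩ := h
  exact ⟨s', s, k, h2, h1⟩

/-- Depth-first order: the next tetrahedron is adjacent to the top of the stack after some pops. -/
def dfs : List (ST Nat) → List (ST Nat) → List Nat → Bool
  | _, [], _ => true
  | _, _ :: _, [] => false
  | st, t :: ts, p :: ps =>
    match st.drop p with
    | [] => false
    | u :: st' => adjB u t && dfs (t :: u :: st') ts ps

theorem dfs_spec (T : List (ST Nat)) (t0 : ST Nat) (ts st : List (ST Nat)) (ps : List Nat)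
    (h : dfs st ts ps = true) (hts : ∀ t ∈ ts, t ∈ T)
    (hst : ∀ t ∈ st, t ∈ T ∧ Relation.ReflTransGen (fun a b => a ∈ T ∧ b ∈ T ∧ Adj a b) t0 t) :
    ∀ t ∈ ts, Relation.ReflTransGen (fun a b => a ∈ T ∧ b ∈ T ∧ Adj a b) t0 t := by
  induction ts generalizing st ps with
  | nil => intro t ht; simp at ht
  | cons t ts ih =>
    rcases ps with _ | ⟨p, ps⟩
    · simp [dfs] at h
    · rw [dfs] at h
      rcases hd : st.drop p with _ | ⟨u, st'⟩
      · rw [hd] at h
        simp at h
      · rw [hd] at h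
        simp only [Bool.and_eq_true] at h
        have hu : ∀ w ∈ u :: st', w ∈ st := by
          intro w hw
          rw [← hd] at hw
          exact List.mem_of_mem_drop hw
        have hu2 := hst u (hu u (by simp))
        have ht : Relation.ReflTransGen (fun a b => a ∈ T ∧ b ∈ T ∧ Adj a b) t0 t :=
          hu2.2.tail ⟨hu2.1, hts t (by simp), adjB_spec h.1⟩
        have h3 := ih (t :: u :: st') ps h.2 (fun w hw => hts w (by simp [hw])) (by
          intro w hw
          rcases List.mem_cons.1 hw with rfl | hw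
          · exact ⟨hts _ (by simp), ht⟩
          · exact hst w (hu w hw))
        intro w hw
        rcases List.mem_cons.1 hw with rfl | hw
        · exact ht
        · exact h3 w hw

/-- The connectedness check. -/
def chkConn (T : List (ST Nat)) (ps : List Nat) : Bool :=
  match T with
  | [] => true
  | t :: ts => dfs [t] ts ps

theorem chkConn_spec {T : List (ST Nat)} {ps : List Nat} (h : chkConn T ps = true) :
    ∀ t ∈ T, ∀ t' ∈ T, Relation.ReflTransGen (fun a b => a ∈ T ∧ b ∈ T ∧ Adj a b) t t' := by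
  rcases T with _ | ⟨t0, ts⟩
  · intro t ht
    simp at ht
  · have h1 := dfs_spec (t0 :: ts) t0 ts [t0] ps h (fun t ht => by simp [ht]) (by
      intro t ht
      rw [List.mem_singleton] at ht
      subst ht
      exact ⟨by simp, Relation.ReflTransGen.refl⟩)
    have h2 : ∀ t ∈ t0 :: ts, Relation.ReflTransGen
        (fun a b => a ∈ t0 :: ts ∧ b ∈ t0 :: ts ∧ Adj a b) t0 t := by
      intro t ht
      rcases List.mem_cons.1 ht with rfl | ht
      · exact Relation.ReflTransGen.refl
      · exact h1 t ht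
    intro t ht t' ht'
    refine Relation.ReflTransGen.trans ?_ (h2 t' ht')
    have h3 := h2 t ht
    clear ht h2 h1 h ht'
    induction h3 with
    | refl => exact Relation.ReflTransGen.refl
    | tail _ hbc ih => exact Relation.ReflTransGen.head ⟨hbc.2.1, hbc.1, hbc.2.2.symm⟩ ih

/-- The mask of the vertices which occur. -/
def seen (T : List (ST Nat)) : Nat :=
  T.foldl (fun m t => m ||| (1 <<< t.2.1) ||| (1 <<< t.2.2.1) ||| (1 <<< t.2.2.2.1) |||
    (1 <<< t.2.2.2.2)) 0

theorem testBit_seen_aux (T : List (ST Nat)) (m v : Nat)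
    (h : (T.foldl (fun m t => m ||| (1 <<< t.2.1) ||| (1 <<< t.2.2.1) ||| (1 <<< t.2.2.2.1) |||
    (1 <<< t.2.2.2.2)) m).testBit v = true) : m.testBit v = true ∨
      ∃ t ∈ T, v = t.2.1 ∨ v = t.2.2.1 ∨ v = t.2.2.2.1 ∨ v = t.2.2.2.2 := by
  induction T generalizing m with
  | nil => exact Or.inl h
  | cons t T ih =>
    rw [List.foldl_cons] at h
    rcases ih _ h with h2 | ⟨t', ht', h2⟩
    · simp only [Nat.testBit_or, Nat.one_shiftLeft, Nat.testBit_two_pow, Bool.or_eq_true,
        decide_eq_true_eq] at h2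
      rcases h2 with (((h2 | h2) | h2) | h2) | h2
      · exact Or.inl h2
      · exact Or.inr ⟨t, by simp, Or.inl h2.symm⟩
      · exact Or.inr ⟨t, by simp, Or.inr (Or.inl h2.symm)⟩
      · exact Or.inr ⟨t, by simp, Or.inr (Or.inr (Or.inl h2.symm))⟩
      · exact Or.inr ⟨t, by simp, Or.inr (Or.inr (Or.inr h2.symm))⟩
    · exact Or.inr ⟨t', by simp [ht'], h2⟩

/-- Every vertex occurs. -/
def chkAll (n : Nat) (T : List (ST Nat)) : Bool := Nat.beq (seen T) (2 ^ n - 1)

theorem chkAll_spec {n : Nat} {T : List (ST Nat)} (h : chkAll n T = true) {v : Nat} (hv : v < n) :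
    ∃ t ∈ T, v = t.2.1 ∨ v = t.2.2.1 ∨ v = t.2.2.2.1 ∨ v = t.2.2.2.2 := by
  have h1 : seen T = 2 ^ n - 1 := Nat.eq_of_beq_eq_true h
  have h2 : (seen T).testBit v = true := by
    rw [h1, Nat.testBit_two_pow_sub_one]
    simpa using hv
  rcases testBit_seen_aux T 0 v h2 with h3 | h3
  · simp at h3
  · exact h3

/-- The complete combinatorial check: `n` vertices, base `B ≥ n` of the codes, number of bits. -/
def chkComb (n B bits : Nat) (T : List (ST Nat)) (ps : List Nat) : Bool :=
  Nat.ble n B && chkIncr n T && chkFaces B bits T && chkConn T ps && chkAll n T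

/-- Transport of a signed tetrahedron. -/
def mapST {V W : Type*} (f : V → W) (t : ST V) : ST W :=
  (t.1, f t.2.1, f t.2.2.1, f t.2.2.2.1, f t.2.2.2.2)

/-- Transport of a triangle. -/
def map3 {V W : Type*} (f : V → W) (k : V × V × V) : W × W × W := (f k.1, f k.2.1, f k.2.2)

theorem faces_mapST {V W : Type*} (f : V → W) (t : ST V) :
    faces (mapST f t) = (faces t).map fun g => (g.1, map3 f g.2) := rfl

theorem Adj.map {V W : Type*} (f : V → W) {t t' : ST V} (h : Adj t t') :
    Adj (mapST f t) (mapST f t') := by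
  obtain ⟨s, s', k, h1, h2⟩ := h
  refine ⟨s, s', map3 f k, ?_, ?_⟩
  · rw [faces_mapST]
    exact List.mem_map.2 ⟨_, h1, rfl⟩
  · rw [faces_mapST]
    exact List.mem_map.2 ⟨_, h2, rfl⟩

/-- The complex with vertices in `Fin n`. -/
def TF (n : Nat) [NeZero n] (T : List (ST Nat)) : List (ST (Fin n)) := T.map (mapST (Fin.ofNat n))

theorem ofNat_lt {n : Nat} [NeZero n] {i j : Nat} (h : i < j) (hj : j < n) :
    Fin.ofNat n i < Fin.ofNat n j := by
  rw [Fin.lt_def]
  simp only [Fin.val_ofNat]
  rw [Nat.mod_eq_of_lt hj, Nat.mod_eq_of_lt (h.trans hj)]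
  exact h

theorem ofNat_inj {n : Nat} [NeZero n] {i j : Nat} (hi : i < n) (hj : j < n)
    (h : Fin.ofNat n i = Fin.ofNat n j) : i = j := by
  have := congrArg Fin.val h
  simp only [Fin.val_ofNat] at this
  rwa [Nat.mod_eq_of_lt hj, Nat.mod_eq_of_lt hi] at this

/-- THE COMBINATORIAL CHECK IS SOUND. -/
theorem comb_of_chk {n B bits : Nat} [NeZero n] {T : List (ST Nat)} {ps : List Nat}
    (h : chkComb n B bits T ps = true) : Comb (TF n T) := by
  unfold chkComb at h
  simp only [Bool.and_eq_true, Nat.ble_eq] at h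
  obtain ⟨⟨⟨⟨hB, hI⟩, hF⟩, hC⟩, hA⟩ := h
  have hI' := chkIncr_spec hI
  constructor
  · intro t ht
    obtain ⟨t', ht', rfl⟩ := List.mem_map.1 ht
    obtain ⟨h1, h2, h3, h4⟩ := hI' t' ht'
    exact ⟨ofNat_lt h1 (by omega), ofNat_lt h2 (by omega), ofNat_lt h3 h4⟩
  · obtain ⟨ks, hk1, hk2⟩ := chkFaces_spec hB hI hF
    refine ⟨ks.map (map3 (Fin.ofNat n)), ?_, ?_⟩
    · have hlt : ∀ k ∈ ks, k.1 < n ∧ k.2.1 < n ∧ k.2.2 < n := by
        intro k hk
        have h1 : (true, k) ∈ ks.flatMap fun k => [(false, k), (true, k)] :=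
          List.mem_flatMap.2 ⟨k, hk, by simp⟩
        have h2 := hk2.mem_iff.2 h1
        obtain ⟨t, ht, h3⟩ := List.mem_flatMap.1 h2
        exact face_lt (hI' t ht) h3
      refine List.Nodup.map_on ?_ hk1
      intro k hk k' hk' hkk
      obtain ⟨h1, h2, h3⟩ := hlt k hk
      obtain ⟨h1', h2', h3'⟩ := hlt k' hk'
      unfold map3 at hkk
      simp only [Prod.mk.injEq] at hkk
      exact Prod.ext (ofNat_inj h1 h1' hkk.1)
        (Prod.ext (ofNat_inj h2 h2' hkk.2.1) (ofNat_inj h3 h3' hkk.2.2))
    · have e1 : (TF n T).flatMap faces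
          = (T.flatMap faces).map fun g => (g.1, map3 (Fin.ofNat n) g.2) := by
        unfold TF
        rw [List.flatMap_map, List.map_flatMap]
        rfl
      rw [e1]
      refine (hk2.map _).trans ?_
      rw [List.map_flatMap, List.flatMap_map]
      exact List.Perm.refl _
  · intro t ht t' ht'
    obtain ⟨s, hs, rfl⟩ := List.mem_map.1 ht
    obtain ⟨s', hs', rfl⟩ := List.mem_map.1 ht'
    have h1 := chkConn_spec hC s hs s' hs'
    exact h1.lift (mapST (Fin.ofNat n)) (fun a b hab =>
      ⟨List.mem_map_of_mem hab.1, List.mem_map_of_mem hab.2.1, hab.2.2.map _⟩)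
  · intro v
    obtain ⟨t, ht, h1⟩ := chkAll_spec hA v.2
    refine ⟨mapST (Fin.ofNat n) t, List.mem_map_of_mem ht, ?_⟩
    have h2 : v = Fin.ofNat n v.1 := by
      apply Fin.ext
      rw [Fin.val_ofNat, Nat.mod_eq_of_lt v.2]
    rcases h1 with h1 | h1 | h1 | h1
    · left
      rw [h2, h1]
      rfl
    · right; left
      rw [h2, h1]
      rfl
    · right; right; left
      rw [h2, h1]
      rfl
    · right; right; right
      rw [h2, h1]
      rfl

/-- The code of the vertices of a tetrahedron. -/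
def tcode (B : Nat) (t : ST Nat) : Nat :=
  ((t.2.1 * B + t.2.2.1) * B + t.2.2.2.1) * B + t.2.2.2.2

/-- The list increases strictly. -/
def incrList : List Nat → Bool
  | [] => true
  | [_] => true
  | x :: y :: l => Nat.blt x y && incrList (y :: l)

theorem incrList_spec (l : List Nat) (h : incrList l = true) : l.Pairwise (· < ·) := by
  induction l with
  | nil => exact List.Pairwise.nil
  | cons x l ih =>
    rcases l with _ | ⟨y, l⟩
    · simp
    · rw [incrList] at h
      simp only [Bool.and_eq_true, Nat.blt_eq] at h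
      have h1 := ih h.2
      refine List.pairwise_cons.2 ⟨fun z hz => ?_, h1⟩
      rcases List.mem_cons.1 hz with rfl | hz
      · exact h.1
      · exact h.1.trans ((List.pairwise_cons.1 h1).1 z hz)

/-- No two tetrahedra have the same vertices. -/
def chkInj (B bits : Nat) (T : List (ST Nat)) : Bool := incrList (radix bits (T.map (tcode B)))

theorem nodup_map_inj {α β : Type*} {f : α → β} {l : List α} (h : (l.map f).Nodup) {a b : α}
    (ha : a ∈ l) (hb : b ∈ l) (hab : f a = f b) : a = b :=
  List.inj_on_of_nodup_map h ha hb hab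

theorem inj_of_chk {n B bits bits' : Nat} [NeZero n] {T : List (ST Nat)}
    (hI : chkIncr n T = true) (h : chkInj B bits' T = true) :
    ∀ s ∈ TF n T, ∀ t ∈ TF n T, s.2 = t.2 → s = t := by
  have h1 : (T.map (tcode B)).Nodup :=
    (radix_perm bits' _).nodup_iff.1 ((incrList_spec _ h).imp (fun h => ne_of_lt h))
  intro s0 hs0 t0 ht0 hst
  obtain ⟨s, hs, rfl⟩ := List.mem_map.1 hs0
  obtain ⟨t, ht, rfl⟩ := List.mem_map.1 ht0
  obtain ⟨s1, s2, s3, s4⟩ := chkIncr_spec hI s hs
  obtain ⟨t1, t2, t3, t4⟩ := chkIncr_spec hI t ht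
  unfold mapST at hst
  simp only [Prod.mk.injEq] at hst
  obtain ⟨e1, e2, e3, e4⟩ := hst
  have e1 := ofNat_inj (by omega) (by omega) e1
  have e2 := ofNat_inj (by omega) (by omega) e2
  have e3 := ofNat_inj (by omega) (by omega) e3
  have e4 := ofNat_inj (by omega) (by omega) e4
  have h2 : s = t := nodup_map_inj h1 hs ht (by unfold tcode; rw [e1, e2, e3, e4])
  rw [h2]

end Helper69.CX
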