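import Pool.Agent.Helper69.CX.Comb

/-!
# Links of vertices: the directed edges of a link are closed under reversal
-/

namespace Helper69.CX

open Pool.Agent.Helper66.AF

variable {V : Type*} [DecidableEq V]

/-- The edge of the link of `v` in a signed triangle. -/
def ledge (v : V) (f : SF V) : List (V × V) :=
  (if f.2.1 = v then [if f.1 = true then (f.2.2.2, f.2.2.1) else (f.2.2.1, f.2.2.2)] else []) ++
  (if f.2.2.1 = v then [if f.1 = true then (f.2.1, f.2.2.2) else (f.2.2.2, f.2.1)] else []) ++
  (if f.2.2.2 = v then [if f.1 = true then (f.2.2.1, f.2.1) else (f.2.1, f.2.2.1)] else [])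

theorem ledge_flip (v : V) (k : V × V × V) :
    (ledge v (false, k)) = (ledge v (true, k)).map Prod.swap := by
  obtain ⟨x, y, z⟩ := k
  unfold ledge
  by_cases hx : x = v <;> by_cases hy : y = v <;> by_cases hz : z = v <;> simp [hx, hy, hz]

theorem link_faces (t : ST V) (v : V) :
    ((linkOf v (orient t)).flatMap triEdges).Perm ((faces t).flatMap (ledge v)) := by
  obtain ⟨s, a, b, c, d⟩ := t
  cases s <;>
    (by_cases ha : a = v <;> by_cases hb : b = v <;> by_cases hc : c = v <;> by_cases hd : d = v) <;>
    simp [linkOf, orient, faces, ledge, triEdges, ha, hb, hc, hd] <;>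
    (rw [← Multiset.coe_eq_coe]
     simp only [← Multiset.cons_coe, ← Multiset.singleton_add, Multiset.coe_nil, add_zero]
     abel)

/-- The link of `v` in a complex with paired faces. -/
theorem link_edges {T : List (ST V)} {ks : List (V × V × V)}
    (h : (T.flatMap faces).Perm (ks.flatMap fun k => [(false, k), (true, k)])) (v : V) :
    ((link (T.map orient) v).flatMap triEdges).Perm
      (ks.flatMap fun k => (ledge v (true, k)).map Prod.swap ++ ledge v (true, k)) := by
  have h1 : (link (T.map orient) v).flatMap triEdges
      = T.flatMap fun t => (linkOf v (orient t)).flatMap triEdges := by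
    unfold link
    rw [List.flatMap_map, List.flatMap_assoc]
  have h2 : (T.flatMap fun t => (linkOf v (orient t)).flatMap triEdges).Perm
      (T.flatMap fun t => (faces t).flatMap (ledge v)) :=
    List.Perm.flatMap_left _ (fun t _ => link_faces t v)
  have h3 : (T.flatMap fun t => (faces t).flatMap (ledge v))
      = (T.flatMap faces).flatMap (ledge v) := by
    rw [List.flatMap_assoc]
  rw [h1]
  refine h2.trans ?_
  rw [h3]
  refine (h.flatMap_right (ledge v)).trans ?_
  rw [List.flatMap_assoc]
  refine List.Perm.flatMap_left _ (fun k _ => ?_)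
  simp [ledge_flip]

theorem swap_closed (v : V) (ks : List (V × V × V)) :
    ((ks.flatMap fun k => (ledge v (true, k)).map Prod.swap ++ ledge v (true, k)).map
      Prod.swap).Perm
      (ks.flatMap fun k => (ledge v (true, k)).map Prod.swap ++ ledge v (true, k)) := by
  rw [List.map_flatMap]
  refine List.Perm.flatMap_left _ (fun k _ => ?_)
  rw [List.map_append, List.map_map, Prod.swap_swap_eq, List.map_id]
  exact List.perm_append_comm

/-- The closedness condition of `IsFan`. -/
theorem closed_of_pairs {T : List (ST V)} {ks : List (V × V × V)}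
    (h : (T.flatMap faces).Perm (ks.flatMap fun k => [(false, k), (true, k)])) (v : V) :
    (((link (T.map orient) v).flatMap triEdges).map Prod.swap).Perm
      ((link (T.map orient) v).flatMap triEdges) := by
  have h1 := link_edges h v
  exact ((h1.map Prod.swap).trans (swap_closed v ks)).trans h1.symm

end Helper69.CX
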