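import Pool.Agent.Helper66.AF.Defs

/-!
# Combinatorial structure of a closed triangulated 3-manifold given by a list (MP_f22a19)

A signed tetrahedron is `(s, a, b, c, d)` with `a < b < c < d`; its faces carry the induced signs.
-/

namespace Helper69.CX

/-- A signed tetrahedron. -/
abbrev ST (V : Type*) : Type _ := Bool × V × V × V × V

/-- A signed triangle. -/
abbrev SF (V : Type*) : Type _ := Bool × V × V × V

section defs

variable {V : Type*}

/-- The signed faces of a signed tetrahedron. -/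
def faces (t : ST V) : List (SF V) :=
  [(t.1, t.2.2.1, t.2.2.2.1, t.2.2.2.2), (!t.1, t.2.1, t.2.2.2.1, t.2.2.2.2),
    (t.1, t.2.1, t.2.2.1, t.2.2.2.2), (!t.1, t.2.1, t.2.2.1, t.2.2.2.1)]

/-- The oriented tetrahedron of a signed tetrahedron. -/
def orient (t : ST V) : V × V × V × V :=
  if t.1 = true then (t.2.1, t.2.2.1, t.2.2.2.1, t.2.2.2.2)
  else (t.2.2.1, t.2.1, t.2.2.2.1, t.2.2.2.2)

/-- Two signed tetrahedra with a common face. -/
def Adj (t t' : ST V) : Prop := ∃ (s s' : Bool) (k : V × V × V), (s, k) ∈ faces t ∧ (s', k) ∈ faces t'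

/-- The combinatorial structure of a closed connected oriented pseudomanifold of dimension three. -/
structure Comb [LT V] (T : List (ST V)) : Prop where
  /-- the vertices increase -/
  incr : ∀ t ∈ T, t.2.1 < t.2.2.1 ∧ t.2.2.1 < t.2.2.2.1 ∧ t.2.2.2.1 < t.2.2.2.2
  /-- every face occurs exactly once with each sign -/
  pairs : ∃ ks : List (V × V × V), ks.Nodup ∧
    (T.flatMap faces).Perm (ks.flatMap fun k => [(false, k), (true, k)])
  /-- the tetrahedra are connected through faces -/
  conn : ∀ t ∈ T, ∀ t' ∈ T, Relation.ReflTransGen (fun a b => a ∈ T ∧ b ∈ T ∧ Adj a b) t t'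
  /-- every vertex occurs -/
  all : ∀ v : V, ∃ t ∈ T, v = t.2.1 ∨ v = t.2.2.1 ∨ v = t.2.2.2.1 ∨ v = t.2.2.2.2

end defs

end Helper69.CX
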