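import Pool.Agent.Helper69.CX.Tree

/-!
# Labels and values on a double (MP_f22a19, note 2600 (5)(A))

`W` is the vertex set of the double, `pi : W → U` the folding map to the vertex set of one copy,
`side w` says that `w` is an interior vertex of the second copy. `f u u'` are the labels of the
edges of one copy, `c u` is the cusp of a boundary vertex (and any fixed point for the interior
vertices) and `q u` the position of the vertex `u`.
-/

namespace Helper69.CX

open Set

section equivalence

variable {P : Type*} [DecidableEq P]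

/-- Points which look the same from all pieces. -/
def Same (x y : RW P × P) : Prop := ∀ w : RW P, pw w x = pw w y

theorem Same.refl (x : RW P × P) : Same x x := fun _ => rfl

theorem Same.symm {x y : RW P × P} (h : Same x y) : Same y x := fun w => (h w).symm

theorem Same.trans {x y z : RW P × P} (h : Same x y) (h2 : Same y z) : Same x z :=
  fun w => (h w).trans (h2 w)

variable {V : P → P → P → P → ℝ}

theorem Same.act {x y : RW P × P} (h : Same x y) (g : GG V) : Same (act g x) (act g y) := by
  intro w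
  have h1 : ∀ z : RW P × P, pw w (Helper69.CX.act g z) = g.1.2 (pw (g.1.1.symm w) z) := by
    intro z
    have := g.2.1 (g.1.1.symm w) z.1 z.2
    rw [Equiv.apply_symm_apply] at this
    exact this
  rw [h1, h1, h]

theorem F0_congr {x0 x1 x2 x3 y0 y1 y2 y3 : RW P × P} (h0 : Same x0 y0) (h1 : Same x1 y1)
    (h2 : Same x2 y2) (h3 : Same x3 y3) : F0 V x0 x1 x2 x3 = F0 V y0 y1 y2 y3 := by
  unfold F0
  refine finsum_congr fun w => ?_
  rw [h0 w.1, h1 w.1, h2 w.1, h3 w.1]

theorem wall (z : P) : Same (RW.one, z) (RW.let z, z) := by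
  intro w
  change pr w.1 [] z = pr w.1 [z] z
  rcases w with ⟨w, hw⟩
  cases w with
  | nil => rfl
  | cons b w =>
    rw [pr_cons_nil]
    change _ = pr (b :: w) [z] z
    rw [pr_cons_cons]
    by_cases h : z = b
    · rw [if_pos h]
      cases w with
      | nil => exact h.symm
      | cons c w => rw [pr_cons_nil, List.getLast_cons (List.cons_ne_nil c w)]
    · rw [if_neg h]

/-- In the base piece only the base piece contributes. -/
theorem F0_base (hV : VZero V) (z0 z1 z2 z3 : P) :
    F0 V (RW.one, z0) (RW.one, z1) (RW.one, z2) (RW.one, z3) = V z0 z1 z2 z3 := by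
  unfold F0
  let w0 : EW P := ⟨RW.one, by simp [RW.one]⟩
  rw [finsum_eq_single _ w0]
  · rfl
  · intro w hw
    apply hV
    left
    have h1 : w.1.1 ≠ [] := fun h => hw (Subtype.ext (Subtype.ext h))
    have h2 : ¬ w.1.1 <+: [] := by simpa using h1
    change pr w.1.1 [] z0 = pr w.1.1 [] z1
    rw [pr_of_not_prefix h1 h2, pr_of_not_prefix h1 h2]

/-- The odd pieces do not contribute. -/
theorem F0_odd (hV : VZero V) (u : RW P) (hu : ¬ Even u.1.length) (z0 z1 z2 z3 : P) :
    F0 V (u, z0) (u, z1) (u, z2) (u, z3) = 0 := by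
  apply F0_eq_zero
  intro w
  apply hV
  left
  have h : w.1.1 ≠ u.1 := fun h2 => hu (h2 ▸ w.2)
  change pr w.1.1 u.1 z0 = pr w.1.1 u.1 z1
  by_cases h2 : u.1 <+: w.1.1
  · have h3 : ¬ w.1.1 <+: u.1 := fun h4 => h (h4.eq_of_length (le_antisymm h4.length_le h2.length_le))
    have h4 : w.1.1 ≠ [] := fun h5 => h3 (h5 ▸ List.nil_prefix)
    rw [pr_of_not_prefix h4 h3, pr_of_not_prefix h4 h3]
  · have := pr_append h h2 [] z0 z1
    rwa [List.append_nil] at this

end equivalence

section double

variable {P : Type*} [DecidableEq P] {U W : Type*}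

/-- The labels and positions of one copy, and the vertices of the double. -/
structure DData (P U W : Type*) (V : P → P → P → P → ℝ) where
  /-- the folding map -/
  fold : W → U
  /-- the interior vertices of the second copy -/
  side : W → Bool
  /-- the labels of the edges -/
  f : U → U → Equiv.Perm P
  /-- the cusps -/
  c : U → P
  /-- the positions of the vertices -/
  q : U → P
  /-- the labels preserve the cocycle -/
  hf : ∀ u u' a b c d, V (f u u' a) (f u u' b) (f u u' c) (f u u' d) = V a b c d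

variable {V : P → P → P → P → ℝ} (D : DData P U W V)

/-- The labels of the edges of the double. -/
def DData.g (w w' : W) : GG V :=
  if D.side w || D.side w' then
    ⟨lab (D.c (D.fold w)) (D.f (D.fold w) (D.fold w')) (D.c (D.fold w')), lab_mem (D.hf _ _) _ _⟩
  else ⟨lab0 (D.f (D.fold w) (D.fold w')), lab0_mem (D.hf _ _)⟩

/-- The label of an edge of the second copy. -/
def DData.g2 (w w' : W) : GG V :=
  ⟨lab (D.c (D.fold w)) (D.f (D.fold w) (D.fold w')) (D.c (D.fold w')), lab_mem (D.hf _ _) _ _⟩

/-- The pair `w, w'` is an admissible pair of vertices of the second copy: if both are boundary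
vertices, the label respects the cusps. -/
def DData.Adm (w w' : W) : Prop :=
  (D.side w || D.side w') = false →
    D.f (D.fold w) (D.fold w') (D.c (D.fold w')) = D.c (D.fold w)

theorem DData.g_eq_g2 {w w' : W} (h : D.Adm w w') : D.g w w' = D.g2 w w' := by
  unfold DData.g DData.g2
  split_ifs with h2
  · rfl
  · exact Subtype.ext (lab_eq_lab0 (h (by simpa using h2))).symm

theorem DData.g2_mul {w w' w'' : W}
    (h : D.f (D.fold w) (D.fold w') * D.f (D.fold w') (D.fold w'')
      = D.f (D.fold w) (D.fold w'')) : D.g2 w w' * D.g2 w' w'' = D.g2 w w'' := by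
  apply Subtype.ext
  change lab _ _ _ * lab _ _ _ = lab _ _ _
  rw [lab_mul, h]

/-- The cocycle condition for the labels of the double. -/
theorem DData.g_mul {w w' w'' : W}
    (h : D.f (D.fold w) (D.fold w') * D.f (D.fold w') (D.fold w'')
      = D.f (D.fold w) (D.fold w''))
    (h2 : (D.side w || D.side w' || D.side w'') = true →
      D.Adm w w' ∧ D.Adm w' w'' ∧ D.Adm w w'') :
    D.g w w' * D.g w' w'' = D.g w w'' := by
  by_cases hs : (D.side w || D.side w' || D.side w'') = true
  · obtain ⟨h3, h4, h5⟩ := h2 hs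
    rw [D.g_eq_g2 h3, D.g_eq_g2 h4, D.g_eq_g2 h5, D.g2_mul h]
  · have h3 : D.side w = false ∧ D.side w' = false ∧ D.side w'' = false := by
      simpa [and_assoc] using hs
    obtain ⟨h3, h4, h5⟩ := h3
    apply Subtype.ext
    unfold DData.g
    simp only [h3, h4, h5, Bool.or_false, Bool.false_eq_true, if_false]
    change lab0 _ * lab0 _ = lab0 _
    rw [lab0_mul, h]

/-- The base point of a vertex of the double. -/
def DData.x (w : W) : RW P × P :=
  if D.side w then (RW.let (D.c (D.fold w)), D.q (D.fold w)) else (RW.one, D.q (D.fold w))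

/-- The cocycle on the vertices of the covering. -/
noncomputable def DData.F (a0 a1 a2 a3 : W × GG V) : ℝ :=
  F0 V (act a0.2 (D.x a0.1)) (act a1.2 (D.x a1.1)) (act a2.2 (D.x a2.1)) (act a3.2 (D.x a3.1))

theorem DData.F_bdd (hV : VZero V) {C : ℝ} (hC : ∀ a b c d, |V a b c d| ≤ C)
    (a0 a1 a2 a3 : W × GG V) : |D.F a0 a1 a2 a3| ≤ C := F0_bdd hV hC _ _ _ _

theorem DData.F_inv (h : GG V) (a0 a1 a2 a3 : W × GG V) :
    D.F (a0.1, h * a0.2) (a1.1, h * a1.2) (a2.1, h * a2.2) (a3.1, h * a3.2)
      = D.F a0 a1 a2 a3 := by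
  unfold DData.F
  simp only [act_mul]
  exact F0_act h _ _ _ _

theorem DData.F_cocycle (hV : VZero V)
    (hc : ∀ a b c d e, V b c d e - V a c d e + V a b d e - V a b c e + V a b c d = 0)
    (a0 a1 a2 a3 a4 : W × GG V) :
    D.F a1 a2 a3 a4 - D.F a0 a2 a3 a4 + D.F a0 a1 a3 a4 - D.F a0 a1 a2 a4
      + D.F a0 a1 a2 a3 = 0 := F0_cocycle hV hc _ _ _ _ _

/-- The value on a facet of the first copy. -/
theorem DData.F_first (hV : VZero V) {w0 w1 w2 w3 : W} (h0 : D.side w0 = false)
    (h1 : D.side w1 = false) (h2 : D.side w2 = false) (h3 : D.side w3 = false) :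
    D.F (w0, 1) (w1, D.g w0 w1) (w2, D.g w0 w2) (w3, D.g w0 w3)
      = V (D.q (D.fold w0)) (D.f (D.fold w0) (D.fold w1) (D.q (D.fold w1)))
        (D.f (D.fold w0) (D.fold w2) (D.q (D.fold w2)))
        (D.f (D.fold w0) (D.fold w3) (D.q (D.fold w3))) := by
  have key : ∀ w, D.side w = false →
      act (D.g w0 w) (D.x w) = (RW.one, D.f (D.fold w0) (D.fold w) (D.q (D.fold w))) := by
    intro w hw
    unfold DData.g DData.x
    simp only [h0, hw, Bool.or_false, Bool.false_eq_true, if_false]
    rfl
  unfold DData.F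
  simp only [act_one]
  rw [key w1 h1, key w2 h2, key w3 h3]
  unfold DData.x
  simp only [h0, Bool.false_eq_true, if_false]
  exact F0_base hV _ _ _ _

/-- The boundary vertices sit at their cusps. -/
def DData.Bd (w : W) : Prop := D.side w = false → D.q (D.fold w) = D.c (D.fold w)

theorem DData.x_same {w : W} (h : D.Bd w) :
    Same (D.x w) (RW.let (D.c (D.fold w)), D.q (D.fold w)) := by
  unfold DData.x
  split_ifs with h2
  · exact Same.refl _
  · rw [h (by simpa using h2)]
    exact wall _

theorem DData.act_g2 (w w' : W) :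
    act (D.g2 w w') (RW.let (D.c (D.fold w')), D.q (D.fold w'))
      = (RW.let (D.c (D.fold w)), D.f (D.fold w) (D.fold w') (D.q (D.fold w'))) := by
  refine Prod.ext ?_ rfl
  apply Subtype.ext
  change sw (D.c (D.fold w)) ((sw (D.c (D.fold w')) [D.c (D.fold w')]).map _) = [D.c (D.fold w)]
  simp [sw]

/-- The value on a facet of the second copy. -/
theorem DData.F_second (hV : VZero V) {w0 w1 w2 w3 : W} (h0 : D.Bd w0)
    (h1 : D.Bd w1 ∧ D.Adm w0 w1) (h2 : D.Bd w2 ∧ D.Adm w0 w2) (h3 : D.Bd w3 ∧ D.Adm w0 w3) :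
    D.F (w0, 1) (w1, D.g w0 w1) (w2, D.g w0 w2) (w3, D.g w0 w3) = 0 := by
  have key : ∀ w, D.Bd w ∧ D.Adm w0 w →
      Same (act (D.g w0 w) (D.x w))
        (RW.let (D.c (D.fold w0)), D.f (D.fold w0) (D.fold w) (D.q (D.fold w))) := by
    intro w hw
    rw [D.g_eq_g2 hw.2, ← D.act_g2 w0 w]
    exact (D.x_same hw.1).act _
  unfold DData.F
  simp only [act_one]
  rw [F0_congr (D.x_same h0) (key w1 h1) (key w2 h2) (key w3 h3)]
  refine F0_odd hV _ ?_ _ _ _ _
  simp [RW.let]

end double

end Helper69.CX
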