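import Pool.Agent.Helper69.CX.Check

/-!
# A faster certificate: indices of the faces and a packed table of triangles

An item is `(s, (a, b, c, d), (i0, i1, i2, i3))`: a signed tetrahedron and the indices of its faces
`bcd, acd, abd, abc` in a table of triangles, packed in one number.
-/

namespace Helper69.CX

/-- A signed tetrahedron with the indices of its faces. -/
abbrev Item : Type := Bool × (Nat × Nat × Nat × Nat) × (Nat × Nat × Nat × Nat)

/-- Evaluate a number before going on. -/
def force (n : Nat) (f : Nat → Bool) : Bool :=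
  match n with
  | 0 => f 0
  | k + 1 => f (k + 1)

theorem force_eq (n : Nat) (f : Nat → Bool) : force n f = f n := by
  cases n <;> rfl

/-- The signed tetrahedron of an item. -/
def toST (t : Item) : ST Nat := (t.1, t.2.1)

/-- The entry of the table. -/
def entry (W tab i : Nat) : Nat := (tab >>> (W * i)) % 2 ^ W

/-- The key of a triangle. -/
def key (B x y z : Nat) : Nat := (x * B + y) * B + z

/-- The local check of an item. -/
def okItem (n B W tab : Nat) : Item → Bool
  | (_, (a, b, c, d), (i0, i1, i2, i3)) =>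
    Nat.blt a b && Nat.blt b c && Nat.blt c d && Nat.blt d n &&
    Nat.beq (entry W tab i0) (key B b c d) && Nat.beq (entry W tab i1) (key B a c d) &&
    Nat.beq (entry W tab i2) (key B a b d) && Nat.beq (entry W tab i3) (key B a b c)

/-- The masks of the indices with sign plus and with sign minus and of the vertices. -/
def masks (full fullV : Nat) : Nat → Nat → Nat → List Item → Bool
  | P, M, S, [] => Nat.beq P full && Nat.beq M full && Nat.beq S fullV
  | P, M, S, (true, (a, b, c, d), (i0, i1, i2, i3)) :: l =>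
    force (P ||| (1 <<< i0) ||| (1 <<< i2)) fun P' =>
      force (M ||| (1 <<< i1) ||| (1 <<< i3)) fun M' =>
        force (S ||| (1 <<< a) ||| (1 <<< b) ||| (1 <<< c) ||| (1 <<< d)) fun S' =>
          masks full fullV P' M' S' l
  | P, M, S, (false, (a, b, c, d), (i0, i1, i2, i3)) :: l =>
    force (P ||| (1 <<< i1) ||| (1 <<< i3)) fun P' =>
      force (M ||| (1 <<< i0) ||| (1 <<< i2)) fun M' =>
        force (S ||| (1 <<< a) ||| (1 <<< b) ||| (1 <<< c) ||| (1 <<< d)) fun S' =>
          masks full fullV P' M' S' l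

/-- The table increases up to index `m`. -/
def tabIncr (W tab : Nat) : Nat → Bool
  | 0 => true
  | i + 1 => Nat.blt (entry W tab i) (entry W tab (i + 1)) && tabIncr W tab i

/-- Common index. -/
def common : Item → Item → Bool
  | (_, _, (i0, i1, i2, i3)), (_, _, (j0, j1, j2, j3)) =>
    Nat.beq i0 j0 || Nat.beq i0 j1 || Nat.beq i0 j2 || Nat.beq i0 j3 ||
    Nat.beq i1 j0 || Nat.beq i1 j1 || Nat.beq i1 j2 || Nat.beq i1 j3 ||
    Nat.beq i2 j0 || Nat.beq i2 j1 || Nat.beq i2 j2 || Nat.beq i2 j3 ||
    Nat.beq i3 j0 || Nat.beq i3 j1 || Nat.beq i3 j2 || Nat.beq i3 j3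

/-- Depth-first order. -/
def dfsI : List Item → List Item → List Nat → Bool
  | _, [], _ => true
  | _, _ :: _, [] => false
  | st, t :: ts, p :: ps =>
    match st.drop p with
    | [] => false
    | u :: st' => common u t && dfsI (t :: u :: st') ts ps

/-- The connectedness check. -/
def connI : List Item → List Nat → Bool
  | [], _ => false
  | t :: ts, ps => dfsI [t] ts ps

/-- THE CERTIFICATE: `n` vertices, base `B` of the keys, width `W` of the entries, `L` items. -/
def cert (n B W tab : Nat) (L : List Item) (ps : List Nat) : Bool :=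
  Nat.ble n B && Nat.blt 2 L.length && L.all (okItem n B W tab) &&
    masks (2 ^ (2 * L.length) - 1) (2 ^ n - 1) 0 0 0 L && tabIncr W tab (2 * L.length - 1) &&
    connI L ps

/-! ## Soundness -/

theorem okItem_spec {n B W tab : Nat} {t : Item} (h : okItem n B W tab t = true) :
    (t.2.1.1 < t.2.1.2.1 ∧ t.2.1.2.1 < t.2.1.2.2.1 ∧ t.2.1.2.2.1 < t.2.1.2.2.2 ∧ t.2.1.2.2.2 < n) ∧
    entry W tab t.2.2.1 = key B t.2.1.2.1 t.2.1.2.2.1 t.2.1.2.2.2 ∧
    entry W tab t.2.2.2.1 = key B t.2.1.1 t.2.1.2.2.1 t.2.1.2.2.2 ∧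
    entry W tab t.2.2.2.2.1 = key B t.2.1.1 t.2.1.2.1 t.2.1.2.2.2 ∧
    entry W tab t.2.2.2.2.2 = key B t.2.1.1 t.2.1.2.1 t.2.1.2.2.1 := by
  obtain ⟨s, ⟨a, b, c, d⟩, ⟨i0, i1, i2, i3⟩⟩ := t
  unfold okItem at h
  simp only [Bool.and_eq_true, Nat.blt_eq] at h
  obtain ⟨⟨⟨⟨⟨⟨⟨h1, h2⟩, h3⟩, h4⟩, h5⟩, h6⟩, h7⟩, h8⟩ := h
  exact ⟨⟨h1, h2, h3, h4⟩, Nat.eq_of_beq_eq_true h5, Nat.eq_of_beq_eq_true h6,
    Nat.eq_of_beq_eq_true h7, Nat.eq_of_beq_eq_true h8⟩

theorem dk_key {B x y z : Nat} (hy : y < B) (hz : z < B) : dk B (key B x y z) = (x, y, z) := by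
  have h := dec_code (B := B) (f := (false, x, y, z)) hy hz
  unfold dec code at h
  simp only [cond_false, Nat.add_zero] at h
  have h2 : 2 * ((x * B + y) * B + z) / 2 = (x * B + y) * B + z := by omega
  rw [h2] at h
  exact (Prod.ext_iff.1 h).2

/-- The triangle with index `i`. -/
def tri (B W tab i : Nat) : Nat × Nat × Nat := dk B (entry W tab i)

/-- Indices of the faces with sign plus. -/
def pl (t : Item) : List Nat :=
  if t.1 = true then [t.2.2.1, t.2.2.2.2.1] else [t.2.2.2.1, t.2.2.2.2.2]

/-- Indices of the faces with sign minus. -/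
def mi (t : Item) : List Nat :=
  if t.1 = true then [t.2.2.2.1, t.2.2.2.2.2] else [t.2.2.1, t.2.2.2.2.1]

theorem faces_item {n B W tab : Nat} (hn : n ≤ B) {t : Item} (h : okItem n B W tab t = true) :
    (faces (toST t)).Perm ((pl t).map (fun i => (true, tri B W tab i)) ++
      (mi t).map (fun i => (false, tri B W tab i))) := by
  obtain ⟨⟨h1, h2, h3, h4⟩, e0, e1, e2, e3⟩ := okItem_spec h
  obtain ⟨s, ⟨a, b, c, d⟩, ⟨i0, i1, i2, i3⟩⟩ := t
  simp only at h1 h2 h3 h4 e0 e1 e2 e3
  have f0 : tri B W tab i0 = (b, c, d) := by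
    unfold tri
    rw [e0, dk_key (by omega) (by omega)]
  have f1 : tri B W tab i1 = (a, c, d) := by
    unfold tri
    rw [e1, dk_key (by omega) (by omega)]
  have f2 : tri B W tab i2 = (a, b, d) := by
    unfold tri
    rw [e2, dk_key (by omega) (by omega)]
  have f3 : tri B W tab i3 = (a, b, c) := by
    unfold tri
    rw [e3, dk_key (by omega) (by omega)]
  cases s
  · simp only [toST, faces, pl, mi, Bool.false_eq_true, if_false, List.map_cons, List.map_nil,
      List.cons_append, List.nil_append, f0, f1, f2, f3, Bool.not_false]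
    rw [← Multiset.coe_eq_coe]
    simp only [← Multiset.cons_coe, ← Multiset.singleton_add, Multiset.coe_nil, add_zero]
    abel
  · simp only [toST, faces, pl, mi, if_true, List.map_cons, List.map_nil,
      List.cons_append, List.nil_append, f0, f1, f2, f3, Bool.not_true]
    rw [← Multiset.coe_eq_coe]
    simp only [← Multiset.cons_coe, ← Multiset.singleton_add, Multiset.coe_nil, add_zero]
    abel

theorem masks_spec {full fullV : Nat} (L : List Item) (P M S : Nat)
    (h : masks full fullV P M S L = true) :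
    (∀ i, full.testBit i = true → P.testBit i = true ∨ i ∈ L.flatMap pl) ∧
    (∀ i, full.testBit i = true → M.testBit i = true ∨ i ∈ L.flatMap mi) ∧
    (∀ v, fullV.testBit v = true → S.testBit v = true ∨
      ∃ t ∈ L, v = t.2.1.1 ∨ v = t.2.1.2.1 ∨ v = t.2.1.2.2.1 ∨ v = t.2.1.2.2.2) := by
  induction L generalizing P M S with
  | nil =>
    rw [masks] at h
    simp only [Bool.and_eq_true] at h
    obtain ⟨⟨h1, h2⟩, h3⟩ := h
    rw [Nat.eq_of_beq_eq_true h1, Nat.eq_of_beq_eq_true h2, Nat.eq_of_beq_eq_true h3]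
    exact ⟨fun i hi => Or.inl hi, fun i hi => Or.inl hi, fun i hi => Or.inl hi⟩
  | cons t L ih =>
    obtain ⟨s, ⟨a, b, c, d⟩, ⟨i0, i1, i2, i3⟩⟩ := t
    cases s
    · rw [masks, force_eq, force_eq, force_eq] at h
      obtain ⟨h1, h2, h3⟩ := ih _ _ _ h
      refine ⟨fun i hi => ?_, fun i hi => ?_, fun v hv => ?_⟩
      · rcases h1 i hi with h4 | h4
        · simp only [Nat.testBit_or, Nat.one_shiftLeft, Nat.testBit_two_pow, Bool.or_eq_true,
            decide_eq_true_eq] at h4
          rcases h4 with (h4 | h4) | h4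
          · exact Or.inl h4
          · exact Or.inr (by simp [pl, h4])
          · exact Or.inr (by simp [pl, h4])
        · exact Or.inr (by rw [List.flatMap_cons]; exact List.mem_append_right _ h4)
      · rcases h2 i hi with h4 | h4
        · simp only [Nat.testBit_or, Nat.one_shiftLeft, Nat.testBit_two_pow, Bool.or_eq_true,
            decide_eq_true_eq] at h4
          rcases h4 with (h4 | h4) | h4
          · exact Or.inl h4
          · exact Or.inr (by simp [mi, h4])
          · exact Or.inr (by simp [mi, h4])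
        · exact Or.inr (by rw [List.flatMap_cons]; exact List.mem_append_right _ h4)
      · rcases h3 v hv with h4 | ⟨t', ht', h4⟩
        · simp only [Nat.testBit_or, Nat.one_shiftLeft, Nat.testBit_two_pow, Bool.or_eq_true,
            decide_eq_true_eq] at h4
          rcases h4 with (((h4 | h4) | h4) | h4) | h4
          · exact Or.inl h4
          · exact Or.inr ⟨_, List.mem_cons_self, Or.inl h4.symm⟩
          · exact Or.inr ⟨_, List.mem_cons_self, Or.inr (Or.inl h4.symm)⟩
          · exact Or.inr ⟨_, List.mem_cons_self, Or.inr (Or.inr (Or.inl h4.symm))⟩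
          · exact Or.inr ⟨_, List.mem_cons_self, Or.inr (Or.inr (Or.inr h4.symm))⟩
        · exact Or.inr ⟨t', List.mem_cons_of_mem _ ht', h4⟩
    · rw [masks, force_eq, force_eq, force_eq] at h
      obtain ⟨h1, h2, h3⟩ := ih _ _ _ h
      refine ⟨fun i hi => ?_, fun i hi => ?_, fun v hv => ?_⟩
      · rcases h1 i hi with h4 | h4
        · simp only [Nat.testBit_or, Nat.one_shiftLeft, Nat.testBit_two_pow, Bool.or_eq_true,
            decide_eq_true_eq] at h4
          rcases h4 with (h4 | h4) | h4
          · exact Or.inl h4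
          · exact Or.inr (by simp [pl, h4])
          · exact Or.inr (by simp [pl, h4])
        · exact Or.inr (by rw [List.flatMap_cons]; exact List.mem_append_right _ h4)
      · rcases h2 i hi with h4 | h4
        · simp only [Nat.testBit_or, Nat.one_shiftLeft, Nat.testBit_two_pow, Bool.or_eq_true,
            decide_eq_true_eq] at h4
          rcases h4 with (h4 | h4) | h4
          · exact Or.inl h4
          · exact Or.inr (by simp [mi, h4])
          · exact Or.inr (by simp [mi, h4])
        · exact Or.inr (by rw [List.flatMap_cons]; exact List.mem_append_right _ h4)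
      · rcases h3 v hv with h4 | ⟨t', ht', h4⟩
        · simp only [Nat.testBit_or, Nat.one_shiftLeft, Nat.testBit_two_pow, Bool.or_eq_true,
            decide_eq_true_eq] at h4
          rcases h4 with (((h4 | h4) | h4) | h4) | h4
          · exact Or.inl h4
          · exact Or.inr ⟨_, List.mem_cons_self, Or.inl h4.symm⟩
          · exact Or.inr ⟨_, List.mem_cons_self, Or.inr (Or.inl h4.symm)⟩
          · exact Or.inr ⟨_, List.mem_cons_self, Or.inr (Or.inr (Or.inl h4.symm))⟩
          · exact Or.inr ⟨_, List.mem_cons_self, Or.inr (Or.inr (Or.inr h4.symm))⟩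
        · exact Or.inr ⟨t', List.mem_cons_of_mem _ ht', h4⟩

theorem length_pl (L : List Item) : (L.flatMap pl).length = 2 * L.length := by
  induction L with
  | nil => rfl
  | cons t L ih =>
    rw [List.flatMap_cons, List.length_append, ih, List.length_cons]
    unfold pl
    split_ifs <;> simp <;> omega

theorem length_mi (L : List Item) : (L.flatMap mi).length = 2 * L.length := by
  induction L with
  | nil => rfl
  | cons t L ih =>
    rw [List.flatMap_cons, List.length_append, ih, List.length_cons]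
    unfold mi
    split_ifs <;> simp <;> omega

theorem perm_range {l : List Nat} {m : Nat} (h : ∀ i < m, i ∈ l) (hl : l.length = m) :
    (List.range m).Perm l := by
  refine List.Subperm.perm_of_length_le ?_ (by rw [hl, List.length_range])
  refine List.subperm_of_subset List.nodup_range ?_
  intro i hi
  exact h i (List.mem_range.1 hi)

theorem tabIncr_spec {W tab : Nat} (m : Nat) (h : tabIncr W tab m = true) :
    ∀ i < m, entry W tab i < entry W tab (i + 1) := by
  induction m with
  | zero => intro i hi; omega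
  | succ m ih =>
    rw [tabIncr] at h
    simp only [Bool.and_eq_true, Nat.blt_eq] at h
    intro i hi
    rcases Nat.lt_succ_iff_lt_or_eq.1 hi with h1 | rfl
    · exact ih h.2 i h1
    · exact h.1

theorem entry_lt {W tab : Nat} (m : Nat) (h : tabIncr W tab m = true) {i j : Nat} (hij : i < j)
    (hj : j ≤ m) : entry W tab i < entry W tab j := by
  induction j with
  | zero => omega
  | succ j ih =>
    have h1 := tabIncr_spec m h j (by omega)
    rcases Nat.lt_succ_iff_lt_or_eq.1 hij with h2 | rfl
    · exact (ih h2 (by omega)).trans h1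
    · exact h1

theorem nodup_tri {B W tab : Nat} (m : Nat) (h : tabIncr W tab (m - 1) = true) :
    ((List.range m).map (tri B W tab)).Nodup := by
  refine List.Nodup.map_on ?_ List.nodup_range
  intro i hi j hj hij
  rw [List.mem_range] at hi hj
  have h1 := dk_injective B hij
  rcases lt_trichotomy i j with h2 | h2 | h2
  · exact absurd h1 (ne_of_lt (entry_lt (m - 1) h h2 (by omega)))
  · exact h2
  · exact absurd h1.symm (ne_of_lt (entry_lt (m - 1) h h2 (by omega)))

theorem flatMap_append_perm {α β : Type*} (l : List α) (f g : α → List β) :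
    (l.flatMap fun x => f x ++ g x).Perm (l.flatMap f ++ l.flatMap g) := by
  induction l with
  | nil => exact List.Perm.refl _
  | cons x l ih =>
    rw [List.flatMap_cons, List.flatMap_cons, List.flatMap_cons, ← Multiset.coe_eq_coe]
    have h := Multiset.coe_eq_coe.2 ih
    simp only [← Multiset.coe_add] at h ⊢
    rw [h]
    abel

theorem range_pairs (m : Nat) (f : Nat → Nat × Nat × Nat) :
    (((List.range m).map fun i => (true, f i)) ++ (List.range m).map fun i => (false, f i)).Perm
      (((List.range m).map f).flatMap fun k => [(false, k), (true, k)]) := by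
  rw [List.flatMap_map]
  refine List.perm_append_comm.trans ?_
  have h := flatMap_append_perm (List.range m) (fun i => [(false, f i)]) (fun i => [(true, f i)])
  have e1 : ∀ b : Bool, (List.range m).flatMap (fun i => [(b, f i)])
      = (List.range m).map fun i => (b, f i) := by
    intro b
    rw [List.map_eq_flatMap]
  rw [e1, e1] at h
  exact h.symm

theorem pairs_of_cert {n B W tab : Nat} {L : List Item} (hn : n ≤ B)
    (h1 : L.all (okItem n B W tab) = true)
    (h2 : masks (2 ^ (2 * L.length) - 1) (2 ^ n - 1) 0 0 0 L = true)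
    (h3 : tabIncr W tab (2 * L.length - 1) = true) :
    ∃ ks : List (Nat × Nat × Nat), ks.Nodup ∧
      ((L.map toST).flatMap faces).Perm (ks.flatMap fun k => [(false, k), (true, k)]) := by
  rw [List.all_eq_true] at h1
  obtain ⟨hP, hM, _⟩ := masks_spec L 0 0 0 h2
  have h4 : ∀ i < 2 * L.length, i ∈ L.flatMap pl := by
    intro i hi
    rcases hP i (by rw [Nat.testBit_two_pow_sub_one]; simpa using hi) with h | h
    · simp at h
    · exact h
  have h5 : ∀ i < 2 * L.length, i ∈ L.flatMap mi := by
    intro i hi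
    rcases hM i (by rw [Nat.testBit_two_pow_sub_one]; simpa using hi) with h | h
    · simp at h
    · exact h
  have p1 := perm_range h4 (length_pl L)
  have p2 := perm_range h5 (length_mi L)
  refine ⟨(List.range (2 * L.length)).map (tri B W tab), nodup_tri _ h3, ?_⟩
  rw [List.flatMap_map]
  have q1 : (L.flatMap fun t => faces (toST t)).Perm (L.flatMap fun t =>
      (pl t).map (fun i => (true, tri B W tab i)) ++ (mi t).map (fun i => (false, tri B W tab i))) :=
    List.Perm.flatMap_left _ (fun t ht => faces_item hn (h1 t ht))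
  refine q1.trans ((flatMap_append_perm _ _ _).trans ?_)
  rw [← List.map_flatMap, ← List.map_flatMap]
  exact ((p1.symm.map _).append (p2.symm.map _)).trans (range_pairs _ _)

theorem face_of_index {n B W tab : Nat} (hn : n ≤ B) {t : Item} (h : okItem n B W tab t = true)
    {i : Nat} (hi : i = t.2.2.1 ∨ i = t.2.2.2.1 ∨ i = t.2.2.2.2.1 ∨ i = t.2.2.2.2.2) :
    ∃ s : Bool, (s, tri B W tab i) ∈ faces (toST t) := by
  have h1 := faces_item hn h
  have h2 : i ∈ pl t ∨ i ∈ mi t := by
    unfold pl mi
    rcases hi with rfl | rfl | rfl | rfl <;> split_ifs <;> simp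
  rcases h2 with h2 | h2
  · exact ⟨true, h1.mem_iff.2 (List.mem_append_left _ (List.mem_map.2 ⟨i, h2, rfl⟩))⟩
  · exact ⟨false, h1.mem_iff.2 (List.mem_append_right _ (List.mem_map.2 ⟨i, h2, rfl⟩))⟩

theorem common_spec {n B W tab : Nat} (hn : n ≤ B) {t u : Item} (ht : okItem n B W tab t = true)
    (hu : okItem n B W tab u = true) (h : common t u = true) : Adj (toST t) (toST u) := by
  have key : ∃ i, (i = t.2.2.1 ∨ i = t.2.2.2.1 ∨ i = t.2.2.2.2.1 ∨ i = t.2.2.2.2.2) ∧
      (i = u.2.2.1 ∨ i = u.2.2.2.1 ∨ i = u.2.2.2.2.1 ∨ i = u.2.2.2.2.2) := by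
    obtain ⟨s, p, ⟨i0, i1, i2, i3⟩⟩ := t
    obtain ⟨s', p', ⟨j0, j1, j2, j3⟩⟩ := u
    unfold common at h
    simp only [Bool.or_eq_true] at h
    simp only
    rcases h with ((((((((((((((h | h) | h) | h) | h) | h) | h) | h) | h) | h) | h) | h) | h) | h) | h) | h <;>
      (have h' := Nat.eq_of_beq_eq_true h; first
        | exact ⟨i0, by simp, by simp [h']⟩
        | exact ⟨i1, by simp, by simp [h']⟩
        | exact ⟨i2, by simp, by simp [h']⟩
        | exact ⟨i3, by simp, by simp [h']⟩)
  obtain ⟨i, h1, h2⟩ := key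
  obtain ⟨s, h3⟩ := face_of_index hn ht h1
  obtain ⟨s', h4⟩ := face_of_index hn hu h2
  exact ⟨s, s', _, h3, h4⟩

theorem dfsI_spec {n B W tab : Nat} (hn : n ≤ B) (T : List Item)
    (hT : ∀ t ∈ T, okItem n B W tab t = true) (t0 : Item) (ts st : List Item) (ps : List Nat)
    (h : dfsI st ts ps = true) (hts : ∀ t ∈ ts, t ∈ T)
    (hst : ∀ t ∈ st, t ∈ T ∧ Relation.ReflTransGen
      (fun a b => a ∈ T.map toST ∧ b ∈ T.map toST ∧ Adj a b) (toST t0) (toST t)) :
    ∀ t ∈ ts, Relation.ReflTransGen
      (fun a b => a ∈ T.map toST ∧ b ∈ T.map toST ∧ Adj a b) (toST t0) (toST t) := by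
  induction ts generalizing st ps with
  | nil => intro t ht; simp at ht
  | cons t ts ih =>
    rcases ps with _ | ⟨p, ps⟩
    · simp [dfsI] at h
    · rw [dfsI] at h
      rcases hd : st.drop p with _ | ⟨u, st'⟩
      · rw [hd] at h
        simp at h
      · rw [hd] at h
        simp only [Bool.and_eq_true] at h
        have hu : ∀ w ∈ u :: st', w ∈ st := by
          intro w hw
          rw [← hd] at hw
          exact List.mem_of_mem_drop hw
        have hu2 := hst u (hu u (by simp))
        have htT := hts t (by simp)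
        have ht : Relation.ReflTransGen
            (fun a b => a ∈ T.map toST ∧ b ∈ T.map toST ∧ Adj a b) (toST t0) (toST t) :=
          hu2.2.tail ⟨List.mem_map_of_mem hu2.1, List.mem_map_of_mem htT,
            common_spec hn (hT u hu2.1) (hT t htT) h.1⟩
        have h3 := ih (t :: u :: st') ps h.2 (fun w hw => hts w (by simp [hw])) (by
          intro w hw
          rcases List.mem_cons.1 hw with rfl | hw
          · exact ⟨htT, ht⟩
          · exact hst w (hu w hw))
        intro w hw
        rcases List.mem_cons.1 hw with rfl | hw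
        · exact ht
        · exact h3 w hw

theorem connI_spec {n B W tab : Nat} (hn : n ≤ B) {L : List Item} {ps : List Nat}
    (hT : ∀ t ∈ L, okItem n B W tab t = true) (h : connI L ps = true) :
    ∀ t ∈ L.map toST, ∀ t' ∈ L.map toST, Relation.ReflTransGen
      (fun a b => a ∈ L.map toST ∧ b ∈ L.map toST ∧ Adj a b) t t' := by
  rcases L with _ | ⟨t0, ts⟩
  · intro t ht
    simp at ht
  · have h1 := dfsI_spec hn (t0 :: ts) hT t0 ts [t0] ps h (fun t ht => by simp [ht]) (by
      intro t ht
      rw [List.mem_singleton] at ht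
      subst ht
      exact ⟨by simp, Relation.ReflTransGen.refl⟩)
    have h2 : ∀ t ∈ (t0 :: ts).map toST, Relation.ReflTransGen
        (fun a b => a ∈ (t0 :: ts).map toST ∧ b ∈ (t0 :: ts).map toST ∧ Adj a b) (toST t0) t := by
      intro t ht
      obtain ⟨w, hw, rfl⟩ := List.mem_map.1 ht
      rcases List.mem_cons.1 hw with rfl | hw
      · exact Relation.ReflTransGen.refl
      · exact h1 w hw
    intro t ht t' ht'
    refine Relation.ReflTransGen.trans ?_ (h2 t' ht')
    have h3 := h2 t ht
    clear ht h2 h1 h ht' hT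
    induction h3 with
    | refl => exact Relation.ReflTransGen.refl
    | tail _ hbc ih => exact Relation.ReflTransGen.head ⟨hbc.2.1, hbc.1, hbc.2.2.symm⟩ ih

/-- From the statements about natural numbers to `Comb` on `Fin n`. -/
theorem comb_of_parts {n : Nat} [NeZero n] {T : List (ST Nat)}
    (hI' : ∀ t ∈ T, t.2.1 < t.2.2.1 ∧ t.2.2.1 < t.2.2.2.1 ∧ t.2.2.2.1 < t.2.2.2.2 ∧ t.2.2.2.2 < n)
    (hP : ∃ ks : List (Nat × Nat × Nat), ks.Nodup ∧
      (T.flatMap faces).Perm (ks.flatMap fun k => [(false, k), (true, k)]))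
    (hC : ∀ t ∈ T, ∀ t' ∈ T, Relation.ReflTransGen (fun a b => a ∈ T ∧ b ∈ T ∧ Adj a b) t t')
    (hA : ∀ v < n, ∃ t ∈ T, v = t.2.1 ∨ v = t.2.2.1 ∨ v = t.2.2.2.1 ∨ v = t.2.2.2.2) :
    Comb (TF n T) := by
  constructor
  · intro t ht
    obtain ⟨t', ht', rfl⟩ := List.mem_map.1 ht
    obtain ⟨h1, h2, h3, h4⟩ := hI' t' ht'
    exact ⟨ofNat_lt h1 (by omega), ofNat_lt h2 (by omega), ofNat_lt h3 h4⟩
  · obtain ⟨ks, hk1, hk2⟩ := hP
    refine ⟨ks.map (map3 (Fin.ofNat n)), ?_, ?_⟩
    · have hlt : ∀ k ∈ ks, k.1 < n ∧ k.2.1 < n ∧ k.2.2 < n := by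
        intro k hk
        have h1 : (true, k) ∈ ks.flatMap fun k => [(false, k), (true, k)] :=
          List.mem_flatMap.2 ⟨k, hk, by simp⟩
        have h2 := hk2.mem_iff.2 h1
        obtain ⟨t, ht, h3⟩ := List.mem_flatMap.1 h2
        exact face_lt (hI' t ht) h3
      refine List.Nodup.map_on ?_ hk1
      intro k hk k' hk' hkk
      obtain ⟨h1, h2, h3⟩ := hlt k hk
      obtain ⟨h1', h2', h3'⟩ := hlt k' hk'
      unfold map3 at hkk
      simp only [Prod.mk.injEq] at hkk
      exact Prod.ext (ofNat_inj h1 h1' hkk.1)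
        (Prod.ext (ofNat_inj h2 h2' hkk.2.1) (ofNat_inj h3 h3' hkk.2.2))
    · have e1 : (TF n T).flatMap faces
          = (T.flatMap faces).map fun g => (g.1, map3 (Fin.ofNat n) g.2) := by
        unfold TF
        rw [List.flatMap_map, List.map_flatMap]
        rfl
      rw [e1]
      refine (hk2.map _).trans ?_
      rw [List.map_flatMap, List.flatMap_map]
      exact List.Perm.refl _
  · intro t ht t' ht'
    obtain ⟨s, hs, rfl⟩ := List.mem_map.1 ht
    obtain ⟨s', hs', rfl⟩ := List.mem_map.1 ht'
    have h1 := hC s hs s' hs'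
    exact h1.lift (mapST (Fin.ofNat n)) (fun a b hab =>
      ⟨List.mem_map_of_mem hab.1, List.mem_map_of_mem hab.2.1, hab.2.2.map _⟩)
  · intro v
    obtain ⟨t, ht, h1⟩ := hA v.1 v.2
    refine ⟨mapST (Fin.ofNat n) t, List.mem_map_of_mem ht, ?_⟩
    have h2 : v = Fin.ofNat n v.1 := by
      apply Fin.ext
      rw [Fin.val_ofNat, Nat.mod_eq_of_lt v.2]
    rcases h1 with h1 | h1 | h1 | h1
    · left
      rw [h2, h1]
      rfl
    · right; left
      rw [h2, h1]
      rfl
    · right; right; left
      rw [h2, h1]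
      rfl
    · right; right; right
      rw [h2, h1]
      rfl

theorem nodup_pairs {ks : List (Nat × Nat × Nat)} (h : ks.Nodup) :
    (ks.flatMap fun k => [(false, k), (true, k)]).Nodup := by
  rw [List.nodup_flatMap]
  refine ⟨fun k _ => by simp, h.imp ?_⟩
  intro a b hab
  rw [Function.onFun, List.disjoint_left]
  intro x hx hx'
  simp only [List.mem_cons, List.not_mem_nil, or_false] at hx hx'
  rcases hx with rfl | rfl <;> rcases hx' with h1 | h1 <;> simp at h1 <;> exact hab h1

theorem unique_of_nodup {α β : Type*} {T : List α} {f : α → List β} (h : (T.flatMap f).Nodup)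
    {x : β} {s t : α} (hs : s ∈ T) (ht : t ∈ T) (hxs : x ∈ f s) (hxt : x ∈ f t) : s = t := by
  by_contra hne
  induction T with
  | nil => simp at hs
  | cons a T ih =>
    rw [List.flatMap_cons, List.nodup_append] at h
    obtain ⟨_, h2, h3⟩ := h
    rcases List.mem_cons.1 hs with hs' | hs'
    · rcases List.mem_cons.1 ht with ht' | ht'
      · exact hne (hs'.trans ht'.symm)
      · rw [hs'] at hxs
        exact h3 x hxs x (List.mem_flatMap.2 ⟨t, ht', hxt⟩) rfl
    · rcases List.mem_cons.1 ht with ht' | ht'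
      · rw [ht'] at hxt
        exact h3 x hxt x (List.mem_flatMap.2 ⟨s, hs', hxs⟩) rfl
      · exact ih h2 hs' ht'

/-- Two different tetrahedra with the same vertices would be the whole complex. -/
theorem inj_of_parts {T : List (ST Nat)}
    (hP : ∃ ks : List (Nat × Nat × Nat), ks.Nodup ∧
      (T.flatMap faces).Perm (ks.flatMap fun k => [(false, k), (true, k)]))
    (hC : ∀ t ∈ T, ∀ t' ∈ T, Relation.ReflTransGen (fun a b => a ∈ T ∧ b ∈ T ∧ Adj a b) t t')
    (hL : 2 < T.length) : ∀ s ∈ T, ∀ t ∈ T, s.2 = t.2 → s = t := by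
  intro s hs t ht hst
  by_contra hne
  obtain ⟨ks, hk1, hk2⟩ := hP
  have hnd : (T.flatMap faces).Nodup := hk2.nodup_iff.2 (nodup_pairs hk1)
  have hsign : t.1 = !s.1 := by
    by_contra h
    have h2 : s.1 = t.1 := by
      cases h3 : s.1 <;> cases h4 : t.1 <;> simp_all
    exact hne (Prod.ext h2 hst)
  have hboth : ∀ (e e' : Bool) (k : Nat × Nat × Nat), ((e, k) ∈ faces s ∨ (e, k) ∈ faces t) →
      ((e', k) ∈ faces s ∨ (e', k) ∈ faces t) := by
    obtain ⟨s1, s2⟩ := s
    obtain ⟨t1, t2⟩ := t
    simp only at hst hsign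
    subst hst hsign
    intro e e' k
    simp only [faces, List.mem_cons, List.not_mem_nil, or_false, Prod.mk.injEq]
    intro h
    have h2 : k = (s2.2.1, s2.2.2.1, s2.2.2.2) ∨ k = (s2.1, s2.2.2.1, s2.2.2.2) ∨
        k = (s2.1, s2.2.1, s2.2.2.2) ∨ k = (s2.1, s2.2.1, s2.2.2.1) := by tauto
    cases e' <;> cases s1 <;> simp <;> tauto
  have hclosed : ∀ b ∈ T, b = s ∨ b = t := by
    intro b hb
    have h1 := hC s hs b hb
    induction h1 with
    | refl => exact Or.inl rfl
    | tail _ hbc ih =>
      rename_i b' c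
      obtain ⟨hb', hc, e, e', k, hk, hk'⟩ := hbc
      have h2 : (e', k) ∈ faces s ∨ (e', k) ∈ faces t := by
        refine hboth e e' k ?_
        rcases ih hb' with rfl | rfl
        · exact Or.inl hk
        · exact Or.inr hk
      rcases h2 with h2 | h2
      · exact Or.inl (unique_of_nodup hnd hc hs hk' h2)
      · exact Or.inr (unique_of_nodup hnd hc ht hk' h2)
  have hT : T.Nodup := by
    rw [List.nodup_flatMap] at hnd
    refine hnd.2.imp ?_
    rintro a _ hab rfl
    exact hab List.mem_cons_self List.mem_cons_self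
  have h3 : T.Subperm [s, t] := by
    refine List.subperm_of_subset hT ?_
    intro b hb
    rcases hclosed b hb with rfl | rfl <;> simp
  have h4 := h3.length_le
  simp at h4
  omega

/-- THE FAST CERTIFICATE IS SOUND. -/
theorem cert_spec {n B W tab : Nat} [NeZero n] {L : List Item} {ps : List Nat}
    (h : cert n B W tab L ps = true) : Comb (TF n (L.map toST)) ∧
      ∀ s ∈ TF n (L.map toST), ∀ t ∈ TF n (L.map toST), s.2 = t.2 → s = t := by
  unfold cert at h
  simp only [Bool.and_eq_true, Nat.ble_eq, Nat.blt_eq] at h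
  obtain ⟨⟨⟨⟨⟨hB, hL⟩, h1⟩, h2⟩, h3⟩, h4⟩ := h
  have h1' : ∀ t ∈ L, okItem n B W tab t = true := List.all_eq_true.1 h1
  have hI : ∀ t ∈ L.map toST, t.2.1 < t.2.2.1 ∧ t.2.2.1 < t.2.2.2.1 ∧ t.2.2.2.1 < t.2.2.2.2 ∧
      t.2.2.2.2 < n := by
    intro t ht
    obtain ⟨u, hu, rfl⟩ := List.mem_map.1 ht
    exact (okItem_spec (h1' u hu)).1
  have hP := pairs_of_cert hB h1 h2 h3
  have hC := connI_spec hB h1' h4
  have hA : ∀ v < n, ∃ t ∈ L.map toST, v = t.2.1 ∨ v = t.2.2.1 ∨ v = t.2.2.2.1 ∨ v = t.2.2.2.2 := by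
    intro v hv
    rcases (masks_spec L 0 0 0 h2).2.2 v (by rw [Nat.testBit_two_pow_sub_one]; simpa using hv)
      with h5 | ⟨t, ht, h5⟩
    · simp at h5
    · exact ⟨toST t, List.mem_map_of_mem ht, h5⟩
  refine ⟨comb_of_parts hI hP hC hA, ?_⟩
  intro s0 hs0 t0 ht0 hst
  obtain ⟨s, hs, rfl⟩ := List.mem_map.1 hs0
  obtain ⟨t, ht, rfl⟩ := List.mem_map.1 ht0
  obtain ⟨s1, s2, s3, s4⟩ := hI s hs
  obtain ⟨t1, t2, t3, t4⟩ := hI t ht
  unfold mapST at hst
  simp only [Prod.mk.injEq] at hst
  obtain ⟨e1, e2, e3, e4⟩ := hst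
  have e1 := ofNat_inj (by omega) (by omega) e1
  have e2 := ofNat_inj (by omega) (by omega) e2
  have e3 := ofNat_inj (by omega) (by omega) e3
  have e4 := ofNat_inj (by omega) (by omega) e4
  have h5 : s = t := inj_of_parts hP hC (by rw [List.length_map]; exact hL) s hs t ht
    (Prod.ext e1 (Prod.ext e2 (Prod.ext e3 e4)))
  rw [h5]

end Helper69.CX
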