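import Pool.Agent.Helper79.CX.Bridge
import Pool.Agent.Helper69.CX.Fast

/-!
# Everything combinatorial from the fast certificate
-/

namespace Helper69.CX

open Pool.CX Pool.Agent.Helper66.AF

theorem chkIncr_of {n : Nat} {T : List (ST Nat)}
    (h : ∀ t ∈ T, t.2.1 < t.2.2.1 ∧ t.2.2.1 < t.2.2.2.1 ∧ t.2.2.2.1 < t.2.2.2.2 ∧ t.2.2.2.2 < n) :
    chkIncr n T = true := by
  unfold chkIncr
  rw [List.all_eq_true]
  intro t ht
  obtain ⟨h1, h2, h3, h4⟩ := h t ht
  simp only [Bool.and_eq_true, Nat.blt_eq]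
  exact ⟨⟨⟨h1, h2⟩, h3⟩, h4⟩

/-- All the combinatorial hypotheses from the fast certificate. -/
theorem all_of_cert {n B W tab : Nat} [NeZero n] {L : List Item} {ps : List Nat}
    (h : cert n B W tab L ps = true) :
    chkIncr n (L.map toST) = true ∧ Comb (TF n (L.map toST)) ∧ CombT (TF n (L.map toST)) ∧
    (∀ v : Fin n, (((link ((TF n (L.map toST)).map orient) v).flatMap triEdges).map Prod.swap).Perm
      ((link ((TF n (L.map toST)).map orient) v).flatMap triEdges)) ∧
    (∀ v w : Fin n, Relation.ReflTransGen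
      (fun a b => ∃ s ∈ (TF n (L.map toST)).map orient, a ∈ verts s ∧ b ∈ verts s) v w) ∧
    (∀ v : Fin n, ∃ t ∈ (TF n (L.map toST)).map orient, v ∈ verts t) := by
  obtain ⟨hc, hinj⟩ := cert_spec h
  have : Nonempty (Fin n) := ⟨0⟩
  refine ⟨?_, hc, combT_of_comb hc hinj, fun v => ?_, hc.conn_vertices, fun v => ?_⟩
  · unfold cert at h
    simp only [Bool.and_eq_true] at h
    have h1 : ∀ t ∈ L, okItem n B W tab t = true := List.all_eq_true.1 h.1.1.1.2
    apply chkIncr_of
    intro t ht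
    obtain ⟨u, hu, rfl⟩ := List.mem_map.1 ht
    exact (okItem_spec (h1 u hu)).1
  · obtain ⟨ks, _, hp⟩ := hc.pairs
    exact closed_of_pairs hp v
  · obtain ⟨t, ht, hv⟩ := hc.all v
    refine ⟨orient t, List.mem_map_of_mem ht, mem_vs_orient.2 ?_⟩
    simpa [vs] using hv

/-- The certificate from its parts (each part can be a theorem of its own). -/
theorem cert_of {n B W tab : Nat} {L : List Item} {ps : List Nat} (h0 : n ≤ B)
    (h1 : 2 < L.length) (h2 : L.all (okItem n B W tab) = true)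
    (h3 : masks (2 ^ (2 * L.length) - 1) (2 ^ n - 1) 0 0 0 L = true)
    (h4 : tabIncr W tab (2 * L.length - 1) = true) (h5 : connI L ps = true) :
    cert n B W tab L ps = true := by
  unfold cert
  simp only [Bool.and_eq_true, Nat.ble_eq, Nat.blt_eq]
  exact ⟨⟨⟨⟨⟨h0, h1⟩, h2⟩, h3⟩, h4⟩, h5⟩

end Helper69.CX
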