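import Pool.Agent.Helper45.CX.FanW
import Pool.Agent.Helper69.CX.FastAll

/-!
# Literal stars of the vertices

`ftab` is a packed table of the facets (width `E` bits). The star of a vertex is a literal list of
pairs (index in the table, facet). If all the stars are correct and the sum of their lengths is
`4 |T|`, they are the complete stars.
-/

namespace Helper69.CX

open Pool.CX

/-- The code of a signed tetrahedron. -/
def fcode (B : Nat) : ST Nat → Nat
  | (s, a, b, c, d) => Nat.add (Nat.mul 2 (Nat.add (Nat.mul (Nat.add (Nat.mul (Nat.add (Nat.mul a B) b) B) c) B) d)) (cond s 1 0)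

/-- The entry of the table of facets. -/
def fent (E ftab j : Nat) : Nat := Nat.mod (Nat.shiftRight ftab (Nat.mul E j)) (Nat.pow 2 E)

/-- The table agrees with the list from index `j` on. -/
def chkTab (E B ftab : Nat) : Nat → List (ST Nat) → Bool
  | _, [] => true
  | j, t :: l => Nat.beq (fent E ftab j) (fcode B t) && force (Nat.succ j) fun j' => chkTab E B ftab j' l

/-- `w` is a vertex of the facet. -/
def hasV (w : Nat) : ST Nat → Bool
  | (_, a, b, c, d) => Nat.beq a w || Nat.beq b w || Nat.beq c w || Nat.beq d w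

/-- The star of `w`: correct entries, increasing codes (at least `p`). -/
def starOK (E B ftab N w : Nat) : Nat → List (Nat × ST Nat) → Bool
  | _, [] => true
  | p, (j, t) :: l => Nat.blt j N && Nat.beq (fent E ftab j) (fcode B t) && Nat.ble p (fcode B t) &&
      hasV w t && Nat.blt t.2.2.1 B && Nat.blt t.2.2.2.1 B && Nat.blt t.2.2.2.2 B &&
      starOK E B ftab N w (Nat.succ (fcode B t)) l

/-- The stars of the vertices `w, w + 1, ...`. -/
def chkStars (E B ftab N : Nat) : Nat → List (List (Nat × ST Nat)) → Bool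
  | _, [] => true
  | w, s :: l => starOK E B ftab N w 0 s && force (Nat.succ w) fun w' => chkStars E B ftab N w' l

theorem fcode_inj {B : Nat} {t t' : ST Nat} (h1 : t.2.2.1 < B) (h2 : t.2.2.2.1 < B)
    (h3 : t.2.2.2.2 < B) (h1' : t'.2.2.1 < B) (h2' : t'.2.2.2.1 < B) (h3' : t'.2.2.2.2 < B)
    (h : fcode B t = fcode B t') : t = t' := by
  obtain ⟨s, a, b, c, d⟩ := t
  obtain ⟨s', a', b', c', d'⟩ := t'
  simp only at h1 h2 h3 h1' h2' h3'
  have hB : 0 < B := by omega
  have h4 : 2 * (((a * B + b) * B + c) * B + d) + cond s 1 0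
      = 2 * (((a' * B + b') * B + c') * B + d') + cond s' 1 0 := h
  have hs : s = s' := by
    cases s <;> cases s' <;> simp at h4 ⊢ <;> omega
  subst hs
  have h5 : ((a * B + b) * B + c) * B + d = ((a' * B + b') * B + c') * B + d' := by omega
  have key : ∀ x x' y y' : Nat, y < B → y' < B → x * B + y = x' * B + y' → x = x' ∧ y = y' := by
    intro x x' y y' hy hy' hxy
    have e1 : (x * B + y) / B = x := by
      rw [Nat.add_comm, Nat.add_mul_div_right _ _ hB, Nat.div_eq_of_lt hy, Nat.zero_add]
    have e2 : (x' * B + y') / B = x' := by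
      rw [Nat.add_comm, Nat.add_mul_div_right _ _ hB, Nat.div_eq_of_lt hy', Nat.zero_add]
    have e3 : x = x' := by rw [← e1, ← e2, hxy]
    subst e3
    exact ⟨rfl, by omega⟩
  obtain ⟨h6, rfl⟩ := key _ _ _ _ h3 h3' h5
  obtain ⟨h7, rfl⟩ := key _ _ _ _ h2 h2' h6
  obtain ⟨rfl, rfl⟩ := key _ _ _ _ h1 h1' h7
  rfl

theorem chkTab_spec {E B ftab : Nat} (l : List (ST Nat)) (j : Nat)
    (h : chkTab E B ftab j l = true) : ∀ i, ∀ hi : i < l.length, fent E ftab (j + i) = fcode B l[i] := by
  induction l generalizing j with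
  | nil => intro i hi; simp at hi
  | cons t l ih =>
    rw [chkTab, force_eq] at h
    simp only [Bool.and_eq_true] at h
    intro i hi
    rcases i with _ | i
    · exact Nat.eq_of_beq_eq_true h.1
    · have h1 := ih (j + 1) h.2 i (by simpa using hi)
      rw [List.getElem_cons_succ, ← h1]
      congr 1
      omega

theorem hasV_iff {w : Nat} {t : ST Nat} :
    hasV w t = true ↔ t.2.1 = w ∨ t.2.2.1 = w ∨ t.2.2.2.1 = w ∨ t.2.2.2.2 = w := by
  obtain ⟨s, a, b, c, d⟩ := t
  have key : ∀ x : Nat, Nat.beq x w = true ↔ x = w :=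
    fun x => ⟨Nat.eq_of_beq_eq_true, fun h => by rw [h]; exact Nat.beq_refl w⟩
  unfold hasV
  simp only [Bool.or_eq_true, key]
  tauto

theorem starOK_spec {E B ftab : Nat} {T : List (ST Nat)} {n : Nat} (hn : n ≤ B)
    (hI : chkIncr n T = true) (hT : chkTab E B ftab 0 T = true) {w : Nat}
    (s : List (Nat × ST Nat)) (p : Nat) (h : starOK E B ftab T.length w p s = true) :
    (∀ x ∈ s, p ≤ fcode B x.2 ∧ x.2 ∈ T.filter (hasV w)) ∧
      (s.map Prod.snd).Pairwise (fun a b => fcode B a < fcode B b) := by
  induction s generalizing p with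
  | nil => simp
  | cons x s ih =>
    obtain ⟨j, t⟩ := x
    rw [starOK] at h
    simp only [Bool.and_eq_true, Nat.blt_eq, Nat.ble_eq] at h
    obtain ⟨⟨⟨⟨⟨⟨⟨h1, h2⟩, h3⟩, h4⟩, h5⟩, h6⟩, h7⟩, h8⟩ := h
    obtain ⟨i1, i2⟩ := ih _ h8
    have hj := chkTab_spec T 0 hT j h1
    rw [Nat.zero_add, Nat.eq_of_beq_eq_true h2] at hj
    have hmem : T[j] ∈ T := List.getElem_mem h1
    obtain ⟨k1, k2, k3, k4⟩ := chkIncr_spec hI _ hmem
    have ht : t = T[j] := fcode_inj h5 h6 h7 (by omega) (by omega) (by omega) hj
    refine ⟨?_, ?_⟩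
    · intro x hx
      rcases List.mem_cons.1 hx with rfl | hx
      · exact ⟨h3, List.mem_filter.2 ⟨ht ▸ hmem, h4⟩⟩
      · obtain ⟨i3, i4⟩ := i1 x hx
        exact ⟨by omega, i4⟩
    · rw [List.map_cons, List.pairwise_cons]
      refine ⟨?_, i2⟩
      intro y hy
      obtain ⟨x, hx, rfl⟩ := List.mem_map.1 hy
      exact (i1 x hx).1

theorem starOK_subperm {E B ftab : Nat} {T : List (ST Nat)} {n : Nat} (hn : n ≤ B)
    (hI : chkIncr n T = true) (hT : chkTab E B ftab 0 T = true) {w : Nat}
    {s : List (Nat × ST Nat)} (h : starOK E B ftab T.length w 0 s = true) :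
    (s.map Prod.snd).Subperm (T.filter (hasV w)) := by
  obtain ⟨h1, h2⟩ := starOK_spec hn hI hT s 0 h
  refine List.subperm_of_subset ?_ ?_
  · exact h2.imp (fun {a b} hab h3 => by rw [h3] at hab; exact lt_irrefl _ hab)
  · intro t ht
    obtain ⟨x, hx, rfl⟩ := List.mem_map.1 ht
    exact (h1 x hx).2

/-- Every facet has four vertices. -/
theorem sum_filter {n : Nat} (T : List (ST Nat)) (hI : chkIncr n T = true) :
    ∑ w ∈ Finset.range n, (T.filter (hasV w)).length = 4 * T.length := by
  induction T with
  | nil => simp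
  | cons t T ih =>
    have hI' : chkIncr n T = true := by
      unfold chkIncr at hI ⊢
      rw [List.all_cons, Bool.and_eq_true] at hI
      exact hI.2
    obtain ⟨h1, h2, h3, h4⟩ := chkIncr_spec hI t List.mem_cons_self
    have e1 : ∀ w, ((t :: T).filter (hasV w)).length
        = (if hasV w t = true then 1 else 0) + (T.filter (hasV w)).length := by
      intro w
      rw [List.filter_cons]
      split_ifs
      · rw [List.length_cons, Nat.add_comm]
      · rw [Nat.zero_add]
    rw [Finset.sum_congr rfl (fun w _ => e1 w), Finset.sum_add_distrib, ih hI', List.length_cons,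
      Finset.sum_boole]
    have e2 : (Finset.range n).filter (fun w => hasV w t = true)
        = {t.2.1, t.2.2.1, t.2.2.2.1, t.2.2.2.2} := by
      ext w
      simp only [Finset.mem_filter, Finset.mem_range, hasV_iff, Finset.mem_insert,
        Finset.mem_singleton]
      constructor
      · rintro ⟨_, h5 | h5 | h5 | h5⟩
        · exact Or.inl h5.symm
        · exact Or.inr (Or.inl h5.symm)
        · exact Or.inr (Or.inr (Or.inl h5.symm))
        · exact Or.inr (Or.inr (Or.inr h5.symm))
      · rintro (rfl | rfl | rfl | rfl)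
        · exact ⟨by omega, Or.inl rfl⟩
        · exact ⟨by omega, Or.inr (Or.inl rfl)⟩
        · exact ⟨by omega, Or.inr (Or.inr (Or.inl rfl))⟩
        · exact ⟨by omega, Or.inr (Or.inr (Or.inr rfl))⟩
    rw [e2, Finset.card_insert_of_notMem, Finset.card_insert_of_notMem,
      Finset.card_insert_of_notMem, Finset.card_singleton]
    · push_cast
      ring
    · simp only [Finset.mem_singleton]
      omega
    · simp only [Finset.mem_insert, Finset.mem_singleton]
      omega
    · simp only [Finset.mem_insert, Finset.mem_singleton]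
      omega

theorem linkOne_nil {w : Nat} {t : ST Nat} (h : hasV w t = false) : linkOne w t = [] := by
  obtain ⟨s, a, b, c, d⟩ := t
  unfold hasV at h
  simp only [Bool.or_eq_false_iff] at h
  obtain ⟨⟨⟨h1, h2⟩, h3⟩, h4⟩ := h
  unfold linkOne
  simp only [h1, h2, h3, h4, cond_false]

theorem linkN_filter (w : Nat) (T : List (ST Nat)) : linkN w T = linkN w (T.filter (hasV w)) := by
  unfold linkN
  induction T with
  | nil => rfl
  | cons t T ih =>
    rw [List.flatMap_cons, List.filter_cons]
    cases h : hasV w t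
    · rw [linkOne_nil h, List.nil_append, ih]
      rfl
    · simp only [if_true]
      rw [List.flatMap_cons, ih]

/-- THE STARS ARE COMPLETE: `cs w` is the literal star of `w`. -/
theorem link_of_stars {E B ftab n : Nat} {T : List (ST Nat)} (hn : n ≤ B)
    (hI : chkIncr n T = true) (hT : chkTab E B ftab 0 T = true) (cs : Nat → List (Nat × ST Nat))
    (hok : ∀ w < n, starOK E B ftab T.length w 0 (cs w) = true)
    (hsum : ∑ w ∈ Finset.range n, (cs w).length = 4 * T.length) :
    ∀ w < n, (linkN w T).Perm (linkN w ((cs w).map Prod.snd)) := by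
  have h1 : ∀ w ∈ Finset.range n, (cs w).length ≤ (T.filter (hasV w)).length := by
    intro w hw
    have := (starOK_subperm hn hI hT (hok w (Finset.mem_range.1 hw))).length_le
    rwa [List.length_map] at this
  have h2 : ∑ w ∈ Finset.range n, (cs w).length
      = ∑ w ∈ Finset.range n, (T.filter (hasV w)).length := by
    rw [hsum, sum_filter T hI]
  have h3 := (Finset.sum_eq_sum_iff_of_le h1).1 h2
  intro w hw
  have h4 := starOK_subperm hn hI hT (hok w hw)
  have h5 : ((cs w).map Prod.snd).Perm (T.filter (hasV w)) := by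
    refine h4.perm_of_length_le ?_
    rw [List.length_map, h3 w (Finset.mem_range.2 hw)]
  rw [linkN_filter]
  unfold linkN
  exact (h5.symm.flatMap_right _)

/-- The stars of a list of stars. -/
theorem chkStars_spec {E B ftab N : Nat} (l : List (List (Nat × ST Nat))) (w : Nat)
    (h : chkStars E B ftab N w l = true) :
    ∀ i, ∀ hi : i < l.length, starOK E B ftab N (w + i) 0 l[i] = true := by
  induction l generalizing w with
  | nil => intro i hi; simp at hi
  | cons s l ih =>
    rw [chkStars, force_eq] at h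
    simp only [Bool.and_eq_true] at h
    intro i hi
    rcases i with _ | i
    · exact h.1
    · have h1 := ih (w + 1) h.2 i (by simpa using hi)
      rw [List.getElem_cons_succ]
      have e : w + (i + 1) = w + 1 + i := by omega
      rw [e]
      exact h1

end Helper69.CX
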