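import Pool.Agent.Helper68.BW.Main
import Pool.Agent.Helper68.BW.Pos
import Pool.Agent.Helper69.CX.Double

/-!
# The volume cocycle on the projective line (MP_f22a19)
-/

namespace Helper69.CX

open Pool.Agent.Helper68.BW hiding act
open scoped LinearAlgebra.Projectivization ComplexConjugate

/-- The complex projective line. -/
abbrev PL : Type := ℙ ℂ (ℂ × ℂ)

noncomputable instance : DecidableEq PL := Classical.decEq _

/-- The signed volume of an ideal simplex with vertices in the projective line. -/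
noncomputable def VP (a b c d : PL) : ℝ := V a.rep b.rep c.rep d.rep

theorem rep_mk {a : ℂ × ℂ} (ha : a ≠ 0) :
    ∃ r : ℂ, r ≠ 0 ∧ (Projectivization.mk ℂ a ha).rep = r • a := by
  obtain ⟨r, hr⟩ := Projectivization.exists_smul_eq_mk_rep ℂ a ha
  exact ⟨r, r.ne_zero, hr.symm⟩

theorem VP_mk {a b c d : ℂ × ℂ} (ha : a ≠ 0) (hb : b ≠ 0) (hc : c ≠ 0) (hd : d ≠ 0) :
    VP (Projectivization.mk ℂ a ha) (Projectivization.mk ℂ b hb) (Projectivization.mk ℂ c hc)
      (Projectivization.mk ℂ d hd) = V a b c d := by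
  obtain ⟨r0, h0, e0⟩ := rep_mk ha
  obtain ⟨r1, h1, e1⟩ := rep_mk hb
  obtain ⟨r2, h2, e2⟩ := rep_mk hc
  obtain ⟨r3, h3, e3⟩ := rep_mk hd
  rw [VP, e0, e1, e2, e3, V_smul0 h0, V_smul1 h1, V_smul2 h2, V_smul3 h3]

theorem VP_zero : VZero VP := by
  intro a b c d h
  unfold VP
  rcases h with h | h | h | h | h | h
  · exact V_zero01 _ _ (by rw [h, dt_self])
  · exact V_zero02 _ _ (by rw [h, dt_self])
  · exact V_zero03 _ _ (by rw [h, dt_self])
  · exact V_zero12 _ _ (by rw [h, dt_self])
  · exact V_zero13 _ _ (by rw [h, dt_self])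
  · exact V_zero23 _ _ (by rw [h, dt_self])

theorem VP_bdd (a b c d : PL) : |VP a b c d| ≤ 3 := V_abs_le _ _ _ _

theorem VP_cocycle (a b c d e : PL) :
    VP b c d e - VP a c d e + VP a b d e - VP a b c e + VP a b c d = 0 :=
  V_five a.rep_nonzero b.rep_nonzero c.rep_nonzero d.rep_nonzero e.rep_nonzero

/-- The linear map of a matrix. -/
noncomputable def lmap (g : Matrix (Fin 2) (Fin 2) ℂ) : (ℂ × ℂ) →ₗ[ℂ] (ℂ × ℂ) where
  toFun := Pool.Agent.Helper68.BW.act g
  map_add' a b := by
    simp only [Pool.Agent.Helper68.BW.act, Prod.fst_add, Prod.snd_add]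
    ext <;> simp <;> ring
  map_smul' r a := by
    simp only [Pool.Agent.Helper68.BW.act, Prod.smul_fst, Prod.smul_snd, smul_eq_mul,
      RingHom.id_apply]
    ext <;> simp <;> ring

theorem act_mul_mat (g h : Matrix (Fin 2) (Fin 2) ℂ) (a : ℂ × ℂ) :
    Pool.Agent.Helper68.BW.act (g * h) a
      = Pool.Agent.Helper68.BW.act g (Pool.Agent.Helper68.BW.act h a) := by
  simp only [Pool.Agent.Helper68.BW.act, Matrix.mul_apply, Fin.sum_univ_two]
  ext <;> simp <;> ring

theorem act_one_mat (a : ℂ × ℂ) :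
    Pool.Agent.Helper68.BW.act (1 : Matrix (Fin 2) (Fin 2) ℂ) a = a := by
  simp [Pool.Agent.Helper68.BW.act]

theorem act_smul_mat (r : ℂ) (g : Matrix (Fin 2) (Fin 2) ℂ) (a : ℂ × ℂ) :
    Pool.Agent.Helper68.BW.act (r • g) a = r • Pool.Agent.Helper68.BW.act g a := by
  simp only [Pool.Agent.Helper68.BW.act, Matrix.smul_apply, smul_eq_mul]
  ext <;> simp <;> ring

theorem act_inv {g : Matrix (Fin 2) (Fin 2) ℂ} (hg : g.det ≠ 0) (a : ℂ × ℂ) :
    Pool.Agent.Helper68.BW.act g⁻¹ (Pool.Agent.Helper68.BW.act g a) = a := by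
  rw [← act_mul_mat, Matrix.nonsing_inv_mul g (isUnit_iff_ne_zero.2 hg), act_one_mat]

theorem act_inv' {g : Matrix (Fin 2) (Fin 2) ℂ} (hg : g.det ≠ 0) (a : ℂ × ℂ) :
    Pool.Agent.Helper68.BW.act g (Pool.Agent.Helper68.BW.act g⁻¹ a) = a := by
  rw [← act_mul_mat, Matrix.mul_nonsing_inv g (isUnit_iff_ne_zero.2 hg), act_one_mat]

theorem act_ne_zero {g : Matrix (Fin 2) (Fin 2) ℂ} (hg : g.det ≠ 0) {a : ℂ × ℂ} (ha : a ≠ 0) :
    Pool.Agent.Helper68.BW.act g a ≠ 0 := by
  intro h
  apply ha
  rw [← act_inv hg a, h]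
  simp [Pool.Agent.Helper68.BW.act]

theorem lmap_injective {g : Matrix (Fin 2) (Fin 2) ℂ} (hg : g.det ≠ 0) :
    Function.Injective (lmap g) := by
  intro a b h
  rw [← act_inv hg a, ← act_inv hg b]
  exact congrArg _ h

/-- The permutation of the projective line given by a matrix. -/
noncomputable def perm (g : Matrix (Fin 2) (Fin 2) ℂ) (hg : g.det ≠ 0) : Equiv.Perm PL where
  toFun := Projectivization.map (lmap g) (lmap_injective hg)
  invFun := Projectivization.map (lmap g⁻¹)
    (lmap_injective (by rw [Matrix.det_nonsing_inv]; simpa using hg))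
  left_inv p := by
    induction p using Projectivization.ind with
    | h v hv =>
      rw [Projectivization.map_mk, Projectivization.map_mk]
      congr 1
      exact act_inv hg v
  right_inv p := by
    induction p using Projectivization.ind with
    | h v hv =>
      rw [Projectivization.map_mk, Projectivization.map_mk]
      congr 1
      exact act_inv' hg v

theorem perm_mk (g : Matrix (Fin 2) (Fin 2) ℂ) (hg : g.det ≠ 0) {v : ℂ × ℂ} (hv : v ≠ 0) :
    perm g hg (Projectivization.mk ℂ v hv)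
      = Projectivization.mk ℂ (Pool.Agent.Helper68.BW.act g v) (act_ne_zero hg hv) := rfl

theorem VP_perm (g : Matrix (Fin 2) (Fin 2) ℂ) (hg : g.det ≠ 0) (a b c d : PL) :
    VP (perm g hg a) (perm g hg b) (perm g hg c) (perm g hg d) = VP a b c d := by
  induction a using Projectivization.ind with
  | h a ha =>
  induction b using Projectivization.ind with
  | h b hb =>
  induction c using Projectivization.ind with
  | h c hc =>
  induction d using Projectivization.ind with
  | h d hd =>
  rw [perm_mk, perm_mk, perm_mk, perm_mk, VP_mk, VP_mk, V_act hg]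

theorem mk_eq_of_smul {v w : ℂ × ℂ} (hv : v ≠ 0) (hw : w ≠ 0) {r : ℂ} (hr : r ≠ 0)
    (h : r • w = v) : Projectivization.mk ℂ v hv = Projectivization.mk ℂ w hw := by
  rw [Projectivization.mk_eq_mk_iff]
  exact ⟨Units.mk0 r hr, h⟩

/-- Two points are equal if their determinant vanishes. -/
theorem mk_eq_of_dt {v w : ℂ × ℂ} (hv : v ≠ 0) (hw : w ≠ 0) (h : dt v w = 0) :
    Projectivization.mk ℂ v hv = Projectivization.mk ℂ w hw := by
  obtain ⟨r, hr, h2⟩ := exists_smul_of_dt hv hw h
  exact (mk_eq_of_smul hw hv hr h2.symm).symm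

/-- Composition of the permutations: an equality of matrices up to a scalar is enough. -/
theorem perm_mul {g h k : Matrix (Fin 2) (Fin 2) ℂ} (hg : g.det ≠ 0) (hh : h.det ≠ 0)
    (hk : k.det ≠ 0) {r : ℂ} (hr : r ≠ 0) (e : g * h = r • k) :
    perm g hg * perm h hh = perm k hk := by
  ext p
  induction p using Projectivization.ind with
  | h v hv =>
    change perm g hg (perm h hh (Projectivization.mk ℂ v hv)) = perm k hk _
    rw [perm_mk, perm_mk, perm_mk]
    apply mk_eq_of_smul _ _ hr
    rw [← act_smul_mat, ← e, act_mul_mat]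

/-- The volume is non-negative if the simplex is not negatively oriented. -/
theorem V_nonneg {a b c d : ℂ × ℂ}
    (h : 0 ≤ (dt a c * dt d b * conj (dt a b * dt c d)).im) : 0 ≤ V a b c d := by
  rcases h.lt_or_eq with h | h
  · exact (V_pos h).le
  · apply le_of_eq
    refine (T_collinear (plucker a b c d) ?_).symm
    have h2 : (dt a b * dt c d * conj (dt a c * dt d b)).im
        = -(dt a c * dt d b * conj (dt a b * dt c d)).im := by
      simp only [Complex.mul_im, Complex.conj_re, Complex.conj_im]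
      ring
    rw [h2, ← h, neg_zero]

end Helper69.CX
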