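import Pool.Agent.Helper69.CX.Link

/-!
# Connectedness of the one-skeleton and the first tetrahedron of a vertex
-/

namespace Helper69.CX

open Pool.Agent.Helper66.AF

variable {V : Type*}

/-- The vertices of a signed tetrahedron. -/
def vs (t : ST V) : List V := [t.2.1, t.2.2.1, t.2.2.2.1, t.2.2.2.2]

theorem mem_vs_orient {t : ST V} {v : V} : v ∈ verts (orient t) ↔ v ∈ vs t := by
  obtain ⟨s, a, b, c, d⟩ := t
  cases s
  · simp only [verts, orient, vs, List.mem_cons, List.not_mem_nil, or_false]
    simp only [Bool.false_eq_true, if_false]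
    tauto
  · simp only [verts, orient, vs, List.mem_cons, List.not_mem_nil, or_false]
    simp only [if_true]

theorem mem_of_face {t : ST V} {f : SF V} (h : f ∈ faces t) : f.2.1 ∈ vs t := by
  obtain ⟨s, a, b, c, d⟩ := t
  simp only [faces, List.mem_cons, List.not_mem_nil, or_false] at h
  rcases h with rfl | rfl | rfl | rfl <;> simp [vs]

theorem conn_aux {T : List (ST V)} {t t' : ST V} (ht : t ∈ T)
    (h : Relation.ReflTransGen (fun a b => a ∈ T ∧ b ∈ T ∧ Adj a b) t t') (v : V) (hv : v ∈ vs t) :
    t' ∈ T ∧ ∀ w ∈ vs t', Relation.ReflTransGen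
      (fun a b => ∃ s ∈ T.map orient, a ∈ verts s ∧ b ∈ verts s) v w := by
  induction h with
  | refl =>
    refine ⟨ht, fun w hw => Relation.ReflTransGen.single ?_⟩
    exact ⟨orient t, List.mem_map_of_mem ht, mem_vs_orient.2 hv, mem_vs_orient.2 hw⟩
  | tail h1 h2 ih =>
    rename_i b c
    obtain ⟨hb, hc, s, s', k, hk, hk'⟩ := h2
    refine ⟨hc, fun w hw => ?_⟩
    refine (ih.2 k.1 (mem_of_face hk)).tail ?_
    exact ⟨orient c, List.mem_map_of_mem hc, mem_vs_orient.2 (mem_of_face hk'), mem_vs_orient.2 hw⟩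

/-- The connectedness condition of `IsAffineComplex`. -/
theorem Comb.conn_vertices [LT V] {T : List (ST V)} (h : Comb T) (v w : V) :
    Relation.ReflTransGen (fun a b => ∃ s ∈ T.map orient, a ∈ verts s ∧ b ∈ verts s) v w := by
  obtain ⟨t, ht, hv⟩ := h.all v
  obtain ⟨t', ht', hw⟩ := h.all w
  have hv' : v ∈ vs t := by simpa [vs] using hv
  have hw' : w ∈ vs t' := by simpa [vs] using hw
  exact (conn_aux ht (h.conn t ht t' ht') v hv').2 w hw'

variable [DecidableEq V]

/-- The corners of an oriented tetrahedron: the vertex and the opposite oriented triangle. -/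
def corners (t : V × V × V × V) : List (V × V × V × V) :=
  [(t.1, t.2.1, t.2.2.1, t.2.2.2), (t.2.1, t.1, t.2.2.2, t.2.2.1),
    (t.2.2.1, t.2.2.2, t.1, t.2.1), (t.2.2.2, t.2.2.1, t.2.1, t.1)]

theorem linkOf_eq (v : V) (t : V × V × V × V) :
    linkOf v t = (corners t).filterMap (fun c => if c.1 = v then some c.2 else none) := by
  obtain ⟨a, b, c, d⟩ := t
  by_cases ha : a = v <;> by_cases hb : b = v <;> by_cases hc : c = v <;> by_cases hd : d = v <;>
    simp [linkOf, corners, ha, hb, hc, hd]

/-- All the corners of a list of oriented tetrahedra. -/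
def allCorners (T : List (V × V × V × V)) : List (V × V × V × V) := T.flatMap corners

/-- The triangles of a list of corners at `v`. -/
def atV (v : V) (L : List (V × V × V × V)) : List (V × V × V) :=
  L.filterMap (fun c => if c.1 = v then some c.2 else none)

theorem link_eq (T : List (V × V × V × V)) (v : V) : link T v = atV v (allCorners T) := by
  unfold link atV allCorners
  rw [List.filterMap_flatMap]
  congr 1
  funext t
  exact linkOf_eq v t

theorem atV_cons_self (v : V) (s : V × V × V) (L : List (V × V × V × V)) :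
    atV v ((v, s) :: L) = s :: atV v L := by
  simp [atV]

theorem atV_cons_ne {v w : V} (h : w ≠ v) (s : V × V × V) (L : List (V × V × V × V)) :
    atV v ((w, s) :: L) = atV v L := by
  simp [atV, h]

/-- One pass over the corners: `P` for the first corner at each vertex, `Q` for all the others. -/
def Pass (P Q : V → V × V × V → Prop) : Set V → List (V × V × V × V) → Prop
  | _, [] => True
  | S, c :: L => (c.1 ∈ S → Q c.1 c.2) ∧ (c.1 ∉ S → P c.1 c.2) ∧ Pass P Q (insert c.1 S) L

theorem Pass.all {P Q : V → V × V × V → Prop} {S : Set V} {L : List (V × V × V × V)}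
    (h : Pass P Q S L) {v : V} (hv : v ∈ S) : ∀ s ∈ atV v L, Q v s := by
  induction L generalizing S with
  | nil => intro s hs; simp [atV] at hs
  | cons c L ih =>
    obtain ⟨w, c⟩ := c
    obtain ⟨h1, h2, h3⟩ := h
    intro s hs
    by_cases hw : w = v
    · subst hw
      rw [atV_cons_self] at hs
      rcases List.mem_cons.1 hs with rfl | hs
      · exact h1 hv
      · exact ih h3 (Set.mem_insert_of_mem _ hv) s hs
    · rw [atV_cons_ne hw] at hs
      exact ih h3 (Set.mem_insert_of_mem _ hv) s hs

theorem Pass.first {P Q : V → V × V × V → Prop} {S : Set V} {L : List (V × V × V × V)}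
    (h : Pass P Q S L) {v : V} (hv : v ∉ S) (hne : atV v L ≠ []) :
    ∃ s L', atV v L = s :: L' ∧ P v s ∧ ∀ s' ∈ L', Q v s' := by
  induction L generalizing S with
  | nil => exact absurd rfl hne
  | cons c L ih =>
    obtain ⟨w, c⟩ := c
    obtain ⟨h1, h2, h3⟩ := h
    by_cases hw : w = v
    · subst hw
      rw [atV_cons_self]
      exact ⟨c, atV w L, rfl, h2 hv, h3.all (Set.mem_insert _ _)⟩
    · rw [atV_cons_ne hw] at hne ⊢
      refine ih h3 (fun h4 => ?_) hne
      rcases h4 with h4 | h4
      · exact hw h4.symm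
      · exact hv h4

/-- Positivity at all corners gives positivity in all the links. -/
theorem link_forall {T : List (V × V × V × V)} {P : V → V × V × V → Prop}
    (h : ∀ c ∈ allCorners T, P c.1 c.2) (v : V) : ∀ s ∈ link T v, P v s := by
  intro s hs
  rw [link_eq] at hs
  unfold atV at hs
  rw [List.mem_filterMap] at hs
  obtain ⟨c, hc, h2⟩ := hs
  split_ifs at h2 with h3
  · simp only [Option.some.injEq] at h2
    rw [← h3, ← h2]
    exact h c hc

theorem exists_linkOf {t : V × V × V × V} {v : V} (h : v ∈ verts t) : ∃ s, s ∈ linkOf v t := by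
  obtain ⟨a, b, c, d⟩ := t
  simp only [verts, List.mem_cons, List.not_mem_nil, or_false] at h
  rcases h with rfl | rfl | rfl | rfl
  · exact ⟨(b, c, d), by simp [linkOf]⟩
  · exact ⟨(a, d, c), by simp [linkOf]⟩
  · exact ⟨(d, a, b), by simp [linkOf]⟩
  · exact ⟨(c, b, a), by simp [linkOf]⟩

/-- The fan condition at every vertex from one pass. -/
theorem isFan_of_pass [LT V] {T : List (ST V)} (hT : Comb T) {p : V → V → E3} {y : V → E3}
    (hpos : ∀ c ∈ allCorners (T.map orient), 0 < det3 (p c.1 c.2.1) (p c.1 c.2.2.1) (p c.1 c.2.2.2))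
    (hpass : Pass (fun v s => InOpenCone (p v s.1) (p v s.2.1) (p v s.2.2) (y v))
      (fun v s => ¬ InCone (p v s.1) (p v s.2.1) (p v s.2.2) (y v)) ∅
      (allCorners (T.map orient))) (v : V) :
    IsFan (link (T.map orient) v) (p v) := by
  obtain ⟨ks, _, hks⟩ := hT.pairs
  refine ⟨link_forall (P := fun v s => 0 < det3 (p v s.1) (p v s.2.1) (p v s.2.2)) hpos v,
    closed_of_pairs hks v, ?_⟩
  have hne : atV v (allCorners (T.map orient)) ≠ [] := by
    obtain ⟨t, ht, hv⟩ := hT.all v
    rw [← link_eq]
    have hv' : v ∈ verts (orient t) := mem_vs_orient.2 (by simpa [vs] using hv)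
    have h1 : ∃ s, s ∈ linkOf v (orient t) := exists_linkOf hv'
    obtain ⟨s, hs⟩ := h1
    have h2 : s ∈ link (T.map orient) v :=
      List.mem_flatMap.2 ⟨orient t, List.mem_map_of_mem ht, hs⟩
    exact List.ne_nil_of_mem h2
  obtain ⟨s, L', h1, h2, h3⟩ := hpass.first (Set.notMem_empty v) hne
  refine ⟨y v, s, L', ?_, h2, h3⟩
  rw [link_eq, h1]

end Helper69.CX
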