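import Pool.Agent.Helper69.CX.Stars

/-!
# The fans of all vertices from literal stars (helper45's vertex test) in chunks
-/

namespace Helper69.CX

open Pool.CX Pool.Agent.Helper66.AF

/-- The test of one vertex: literal star and certificate of the fan. -/
def svOK (E B ftab N n k : Nat) (S : ℤ) (box : Nat → ABox) (lab : Nat → Nat → Nat)
    (pos : Nat → Pt) (fold : Nat → Nat) (side : Nat → Bool) (w : Nat)
    (c : List (Nat × ST Nat) × VCert) : Bool :=
  starOK E B ftab N w 0 c.1 &&
    chkVL n k S box lab pos fold side (linkN w (c.1.map Prod.snd)) w c.2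

/-- The test of the vertices `w, w + 1, ...`. -/
def chkSVs (E B ftab N n k : Nat) (S : ℤ) (box : Nat → ABox) (lab : Nat → Nat → Nat)
    (pos : Nat → Pt) (fold : Nat → Nat) (side : Nat → Bool) :
    Nat → List (List (Nat × ST Nat) × VCert) → Bool
  | _, [] => true
  | w, c :: cs => svOK E B ftab N n k S box lab pos fold side w c &&
      force (Nat.succ w) fun w' => chkSVs E B ftab N n k S box lab pos fold side w' cs

section

variable {E B ftab N n k : Nat} {S : ℤ} {box : Nat → ABox} {lab : Nat → Nat → Nat}
  {pos : Nat → Pt} {fold : Nat → Nat} {side : Nat → Bool}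

theorem chkSVs_get (cs : List (List (Nat × ST Nat) × VCert)) (w : Nat)
    (h : chkSVs E B ftab N n k S box lab pos fold side w cs = true) :
    ∀ i, ∀ hi : i < cs.length, svOK E B ftab N n k S box lab pos fold side (w + i) cs[i] = true := by
  induction cs generalizing w with
  | nil => intro i hi; simp at hi
  | cons s l ih =>
    rw [chkSVs, force_eq] at h
    simp only [Bool.and_eq_true] at h
    intro i hi
    rcases i with _ | i
    · exact h.1
    · have h1 := ih (w + 1) h.2 i (by simpa using hi)
      rw [List.getElem_cons_succ]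
      have e : w + (i + 1) = w + 1 + i := by omega
      rw [e]
      exact h1

/-- Concatenation of two chunks. -/
theorem chkSVs_append (a b : List (List (Nat × ST Nat) × VCert)) (w w' : Nat)
    (h : chkSVs E B ftab N n k S box lab pos fold side w a = true) (hw : w + a.length = w')
    (h' : chkSVs E B ftab N n k S box lab pos fold side w' b = true) :
    chkSVs E B ftab N n k S box lab pos fold side w (a ++ b) = true := by
  induction a generalizing w with
  | nil =>
    have e : w = w' := by simpa using hw
    rw [List.nil_append, e]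
    exact h'
  | cons s l ih =>
    rw [chkSVs, force_eq] at h
    simp only [Bool.and_eq_true] at h
    rw [List.cons_append, chkSVs, force_eq]
    simp only [Bool.and_eq_true]
    refine ⟨h.1, ih (w + 1) h.2 ?_⟩
    rw [List.length_cons] at hw
    omega

end

/-- ALL THE FANS: `cs` is the list of the stars and certificates of the vertices `0, ..., n - 1`. -/
theorem fans_of_SVs {E B ftab n k : Nat} [NeZero n] {T : List (ST Nat)} (hn : n ≤ B)
    (hI : chkIncr n T = true) (hC : Comb (TF n T)) {rels : List (ℕ × ℕ × ℕ)} {bds : List ℕ}
    {box : ℕ → ABox} {S : ℤ} (R : RealPoint k rels bds box (S : ℝ)) (hS : 0 < S)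
    {lab : ℕ → ℕ → ℕ} {pos : ℕ → Pt} {fold : ℕ → ℕ} {side : ℕ → Bool}
    (hT : chkTab E B ftab 0 T = true) {N : Nat} (hN : T.length = N)
    (cs : List (List (Nat × ST Nat) × VCert))
    (h : chkSVs E B ftab N n k S box lab pos fold side 0 cs = true)
    (hlen : cs.length = n) (hsum : (cs.map fun c => c.1.length).sum = 4 * N) (w : Fin n) :
    IsFan (link ((TF n T).map orient) w) (pW (fun u u' => R.A (lab u u'))
      (fun u => (pos u).val) (fun v : Fin n => fold v.1) (fun v => side v.1) w) := by
  have h1 : ∀ v, ∀ hv : v < n, svOK E B ftab N n k S box lab pos fold side v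
      (cs[v]'(by omega)) = true := by
    intro v hv
    have := chkSVs_get cs 0 h v (by omega)
    rwa [Nat.zero_add] at this
  let st : Nat → List (Nat × ST Nat) := fun v => if hv : v < cs.length then (cs[v]'hv).1 else []
  have hst : ∀ v, ∀ hv : v < n, st v = (cs[v]'(by omega)).1 := by
    intro v hv
    have : v < cs.length := by omega
    simp only [st, this, dif_pos]
  have h2 : ∀ v < n, starOK E B ftab T.length v 0 (st v) = true := by
    intro v hv
    have h3 := h1 v hv
    unfold svOK at h3
    rw [Bool.and_eq_true] at h3
    rw [hst v hv, hN]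
    exact h3.1
  have h3 : ∑ v ∈ Finset.range n, (st v).length = 4 * T.length := by
    rw [hN, ← hsum, ← hlen, Finset.sum_range,
      ← Fin.sum_univ_fun_getElem cs (fun c => c.1.length)]
    refine Finset.sum_congr rfl fun v _ => ?_
    rw [hst v.1 (by have := v.2; omega)]
  have h4 := link_of_stars hn hI hT st h2 h3 w.1 w.2
  rw [hst w.1 w.2] at h4
  have h5 := h1 w.1 w.2
  unfold svOK at h5
  rw [Bool.and_eq_true] at h5
  exact fanWL hI hC R hS lab pos fold side w _ _ h4 h5.2

end Helper69.CX
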