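import Mathlib

/-!
# The cocycle on the tree of pieces (MP_f22a19, note 2600 (5)(A))

`P` is a set of points (the projective line), `V` a bounded cocycle on `P` which vanishes when two
of its points coincide. Reduced words in letters of `P` are the pieces of the universal cover of a
double; `pr w u z` is the position, seen from the piece `w`, of a point with position `z` in the
piece `u`.
-/

namespace Helper69.CX

open Set

variable {P : Type*}

/-- Position of the point `z` of the piece `u`, seen from the piece `w`. -/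
noncomputable def pr [DecidableEq P] : List P → List P → P → P
  | [], [], z => z
  | [], a :: _, _ => a
  | b :: w, [], _ => (b :: w).getLast (List.cons_ne_nil b w)
  | b :: w, a :: u, z => if a = b then pr w u z else (b :: w).getLast (List.cons_ne_nil b w)

/-- Left multiplication of a word by the letter `x`. -/
def sw [DecidableEq P] (x : P) : List P → List P
  | [] => [x]
  | a :: u => if a = x then u else x :: a :: u

/-- Reduced words. -/
def Red (w : List P) : Prop := w.IsChain (fun a b => a ≠ b)

section basic

variable [DecidableEq P]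

@[simp] theorem pr_nil_nil (z : P) : pr [] [] z = z := rfl

@[simp] theorem pr_nil_cons (a : P) (u : List P) (z : P) : pr [] (a :: u) z = a := rfl

theorem pr_cons_nil (b : P) (w : List P) (z : P) :
    pr (b :: w) [] z = (b :: w).getLast (List.cons_ne_nil b w) := rfl

theorem pr_cons_cons (b : P) (w : List P) (a : P) (u : List P) (z : P) :
    pr (b :: w) (a :: u) z =
      if a = b then pr w u z else (b :: w).getLast (List.cons_ne_nil b w) := rfl

@[simp] theorem pr_self (w : List P) (z : P) : pr w w z = z := by
  induction w with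
  | nil => rfl
  | cons b w ih => rw [pr_cons_cons, if_pos rfl, ih]

/-- If `w` is not an initial segment of `u`, one leaves `w` through its last letter. -/
theorem pr_of_not_prefix {w : List P} (hw : w ≠ []) {u : List P} (h : ¬ w <+: u) (z : P) :
    pr w u z = w.getLast hw := by
  induction w generalizing u with
  | nil => exact absurd rfl hw
  | cons b w ih =>
    cases u with
    | nil => rfl
    | cons a u =>
      rw [pr_cons_cons]
      split_ifs with hab
      · subst hab
        have h2 : ¬ w <+: u := fun h3 => h (List.cons_prefix_cons.2 ⟨rfl, h3⟩)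
        have hw2 : w ≠ [] := fun h3 => h2 (h3 ▸ List.nil_prefix)
        rw [ih hw2 h2, List.getLast_cons hw2]
      · rfl

/-- Beyond `w'` everything looks the same from `w`. -/
theorem pr_append {w w' : List P} (h : w ≠ w') (h2 : ¬ w' <+: w) (u1 : List P) (z z' : P) :
    pr w (w' ++ u1) z = pr w w' z' := by
  induction w generalizing w' with
  | nil =>
    cases w' with
    | nil => exact absurd rfl h
    | cons c w' => rfl
  | cons b w ih =>
    cases w' with
    | nil => exact absurd List.nil_prefix h2
    | cons c w' =>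
      rw [List.cons_append, pr_cons_cons, pr_cons_cons]
      split_ifs with hcb
      · subst hcb
        exact ih (fun h3 => h (by rw [h3])) (fun h3 => h2 (List.cons_prefix_cons.2 ⟨rfl, h3⟩))
      · rfl

theorem pr_two_aux {w w' : List P} (h : w ≠ w') (h2 : ¬ w' <+: w) (z' : P) (u : List P) (z : P) :
    pr w u z = pr w w' z' ∨ pr w' u z = pr w' w z' := by
  have hw' : w' ≠ [] := fun h3 => h2 (h3 ▸ List.nil_prefix)
  by_cases h3 : w' <+: u
  · obtain ⟨u1, rfl⟩ := h3
    exact Or.inl (pr_append h h2 u1 z z')
  · right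
    rw [pr_of_not_prefix hw' h3, pr_of_not_prefix hw' h2]

/-- Seen from two different pieces, one of the two views is the constant direction. -/
theorem pr_two {w w' : List P} (h : w ≠ w') (z' : P) (u : List P) (z : P) :
    pr w u z = pr w w' z' ∨ pr w' u z = pr w' w z' := by
  by_cases h2 : w' <+: w
  · have h3 : ¬ w <+: w' := fun h4 => h (h4.eq_of_length (le_antisymm h4.length_le h2.length_le))
    exact (pr_two_aux (Ne.symm h) h3 z' u z).symm
  · exact pr_two_aux h h2 z' u z

theorem sw_sw {x : P} {u : List P} (h : Red u) : sw x (sw x u) = u := by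
  cases u with
  | nil => simp [sw]
  | cons a u =>
    by_cases ha : a = x
    · subst ha
      have h1 : sw a (a :: u) = u := by simp [sw]
      rw [h1]
      cases u with
      | nil => rfl
      | cons b u =>
        have hab : a ≠ b := (List.isChain_cons_cons.1 h).1
        simp [sw, Ne.symm hab]
    · simp [sw, ha]

theorem red_sw (x : P) {u : List P} (h : Red u) : Red (sw x u) := by
  cases u with
  | nil => simp [sw, Red]
  | cons a u =>
    by_cases ha : a = x
    · subst ha
      have h1 : sw a (a :: u) = u := by simp [sw]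
      rw [h1]
      exact List.IsChain.of_cons h
    · have h1 : sw x (a :: u) = x :: a :: u := by simp [sw, ha]
      rw [h1]
      exact List.isChain_cons_cons.2 ⟨fun h2 => ha h2.symm, h⟩

theorem even_length_sw (x : P) (u : List P) : Even (sw x u).length ↔ ¬ Even u.length := by
  cases u with
  | nil => simp [sw]
  | cons a u =>
    by_cases ha : a = x
    · simp [sw, ha, Nat.even_add_one]
    · simp [sw, ha, Nat.even_add_one]

theorem pr_sw (x : P) {w u : List P} (hw : Red w) (hu : Red u) (z : P) :
    pr (sw x w) (sw x u) z = pr w u z := by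
  cases w with
  | nil =>
    cases u with
    | nil => simp [sw]
    | cons a u =>
      by_cases ha : a = x
      · subst ha
        have h1 : sw a (a :: u) = u := by simp [sw]
        have h2 : sw a [] = [a] := rfl
        rw [h1, h2]
        cases u with
        | nil => rfl
        | cons b u =>
          have hab : a ≠ b := (List.isChain_cons_cons.1 hu).1
          rw [pr_cons_cons, if_neg (Ne.symm hab)]
          rfl
      · have h1 : sw x (a :: u) = x :: a :: u := by simp [sw, ha]
        have h2 : sw x [] = [x] := rfl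
        rw [h1, h2, pr_cons_cons, if_pos rfl]
  | cons b w =>
    by_cases hb : b = x
    · subst hb
      have h1 : sw b (b :: w) = w := by simp [sw]
      rw [h1]
      cases u with
      | nil =>
        have h2 : sw b [] = [b] := rfl
        rw [h2]
        cases w with
        | nil => rfl
        | cons c w =>
          have hbc : b ≠ c := (List.isChain_cons_cons.1 hw).1
          rw [pr_cons_cons, if_neg hbc, pr_cons_nil, List.getLast_cons (List.cons_ne_nil c w)]
      | cons a u =>
        by_cases ha : a = b
        · subst ha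
          have h2 : sw a (a :: u) = u := by simp [sw]
          rw [h2, pr_cons_cons, if_pos rfl]
        · have h2 : sw b (a :: u) = b :: a :: u := by simp [sw, ha]
          rw [h2, pr_cons_cons, if_neg ha]
          cases w with
          | nil => rfl
          | cons c w =>
            have hbc : b ≠ c := (List.isChain_cons_cons.1 hw).1
            rw [pr_cons_cons, if_neg hbc, List.getLast_cons (List.cons_ne_nil c w)]
    · have h1 : sw x (b :: w) = x :: b :: w := by simp [sw, hb]
      rw [h1]
      cases u with
      | nil =>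
        have h2 : sw x [] = [x] := rfl
        rw [h2, pr_cons_cons, if_pos rfl]
      | cons a u =>
        by_cases ha : a = x
        · subst ha
          have h2 : sw a (a :: u) = u := by simp [sw]
          have hab : a ≠ b := fun h3 => hb h3.symm
          rw [h2, pr_cons_cons, if_neg hab]
          cases u with
          | nil => rw [pr_cons_nil, List.getLast_cons (List.cons_ne_nil b w)]
          | cons c u =>
            have hac : a ≠ c := (List.isChain_cons_cons.1 hu).1
            rw [pr_cons_cons, if_neg (Ne.symm hac), List.getLast_cons (List.cons_ne_nil b w)]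
        · have h2 : sw x (a :: u) = x :: a :: u := by simp [sw, ha]
          rw [h2, pr_cons_cons x (b :: w) x (a :: u), if_pos rfl]

theorem map_sw {f : P → P} (hf : Function.Injective f) (x : P) (u : List P) :
    (sw x u).map f = sw (f x) (u.map f) := by
  cases u with
  | nil => rfl
  | cons a u =>
    by_cases ha : a = x
    · subst ha
      simp [sw]
    · have : f a ≠ f x := fun h => ha (hf h)
      simp [sw, ha, this]

theorem pr_map {f : P → P} (hf : Function.Injective f) (w u : List P) (z : P) :
    pr (w.map f) (u.map f) (f z) = f (pr w u z) := by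
  induction w generalizing u with
  | nil =>
    cases u with
    | nil => rfl
    | cons a u => rfl
  | cons b w ih =>
    cases u with
    | nil =>
      change ((b :: w).map f).getLast _ = f ((b :: w).getLast _)
      rw [List.getLast_map]
    | cons a u =>
      rw [pr_cons_cons]
      change (if f a = f b then _ else ((b :: w).map f).getLast _) = _
      by_cases hab : a = b
      · subst hab
        rw [if_pos rfl, if_pos rfl, ih]
      · rw [if_neg (fun h => hab (hf h)), if_neg hab, List.getLast_map]

end basic

section cocycle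

variable [DecidableEq P]

/-- The pieces: reduced words. -/
def RW (P : Type*) : Type _ := {w : List P // Red w}

/-- The pieces of even length. -/
def EW (P : Type*) : Type _ := {w : RW P // Even w.1.length}

/-- The empty word. -/
def RW.one : RW P := ⟨[], by simp [Red]⟩

/-- The word with one letter. -/
def RW.let (x : P) : RW P := ⟨[x], by simp [Red]⟩

/-- Position of the point `x`, seen from the piece `w`. -/
noncomputable def pw (w : RW P) (x : RW P × P) : P := pr w.1 x.1.1 x.2

/-- The cocycle on the points of the tree of pieces. -/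
noncomputable def F0 (V : P → P → P → P → ℝ) (x0 x1 x2 x3 : RW P × P) : ℝ :=
  ∑ᶠ w : EW P, V (pw w.1 x0) (pw w.1 x1) (pw w.1 x2) (pw w.1 x3)

/-- `V` vanishes when two of the points coincide. -/
def VZero (V : P → P → P → P → ℝ) : Prop :=
  ∀ a b c d, (a = b ∨ a = c ∨ a = d ∨ b = c ∨ b = d ∨ c = d) → V a b c d = 0

variable {V : P → P → P → P → ℝ}

theorem V_zero_or (hV : VZero V) {w w' : RW P} (h : w ≠ w') (x0 x1 x2 x3 : RW P × P) :
    V (pw w x0) (pw w x1) (pw w x2) (pw w x3) = 0 ∨
      V (pw w' x0) (pw w' x1) (pw w' x2) (pw w' x3) = 0 := by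
  have h1 : w.1 ≠ w'.1 := fun h2 => h (Subtype.ext h2)
  have key : ∀ x : RW P × P, pw w x = pr w.1 w'.1 x0.2 ∨ pw w' x = pr w'.1 w.1 x0.2 := by
    intro x
    rcases pr_two h1 x0.2 x.1.1 x.2 with h2 | h2
    · exact Or.inl h2
    · right
      rcases pr_two h1 x0.2 x.1.1 x.2 with h3 | h3
      · exact h2
      · exact h3
  rcases key x0 with h2 | h2 <;> rcases key x1 with h3 | h3 <;> rcases key x2 with h4 | h4 <;>
    rcases key x3 with h5 | h5 <;>
    first
    | (left; apply hV; rw [h2, h3]; simp)
    | (left; apply hV; rw [h2, h4]; simp)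
    | (left; apply hV; rw [h2, h5]; simp)
    | (left; apply hV; rw [h3, h4]; simp)
    | (left; apply hV; rw [h3, h5]; simp)
    | (left; apply hV; rw [h4, h5]; simp)
    | (right; apply hV; rw [h2, h3]; simp)
    | (right; apply hV; rw [h2, h4]; simp)
    | (right; apply hV; rw [h3, h4]; simp)

/-- Either all terms of `F0` vanish or exactly one does not. -/
theorem single_term (hV : VZero V) (x0 x1 x2 x3 : RW P × P) :
    (∀ w : EW P, V (pw w.1 x0) (pw w.1 x1) (pw w.1 x2) (pw w.1 x3) = 0) ∨
      ∃ w : EW P, ∀ w' : EW P, w' ≠ w → V (pw w'.1 x0) (pw w'.1 x1) (pw w'.1 x2) (pw w'.1 x3) = 0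
      := by
  by_cases h : ∀ w : EW P, V (pw w.1 x0) (pw w.1 x1) (pw w.1 x2) (pw w.1 x3) = 0
  · exact Or.inl h
  · right
    push Not at h
    obtain ⟨w, hw⟩ := h
    refine ⟨w, fun w' hw' => ?_⟩
    rcases V_zero_or hV (fun h2 => hw' (Subtype.ext h2) : w'.1 ≠ w.1) x0 x1 x2 x3 with h3 | h3
    · exact h3
    · exact absurd h3 hw

theorem F0_eq_zero (x0 x1 x2 x3 : RW P × P)
    (h : ∀ w : EW P, V (pw w.1 x0) (pw w.1 x1) (pw w.1 x2) (pw w.1 x3) = 0) :
    F0 V x0 x1 x2 x3 = 0 := by
  unfold F0
  rw [finsum_congr h]
  simp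

theorem F0_finite (hV : VZero V) (x0 x1 x2 x3 : RW P × P) :
    (Function.support fun w : EW P =>
      V (pw w.1 x0) (pw w.1 x1) (pw w.1 x2) (pw w.1 x3)).Finite := by
  rcases single_term hV x0 x1 x2 x3 with h | ⟨w, h⟩
  · refine Set.Finite.subset Set.finite_empty ?_
    intro w hw
    exact hw (h w)
  · refine Set.Finite.subset (Set.finite_singleton w) ?_
    intro w' hw'
    by_contra h2
    exact hw' (h w' h2)

theorem F0_bdd (hV : VZero V) {C : ℝ} (hC : ∀ a b c d, |V a b c d| ≤ C)
    (x0 x1 x2 x3 : RW P × P) : |F0 V x0 x1 x2 x3| ≤ C := by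
  rcases single_term hV x0 x1 x2 x3 with h | ⟨w, h⟩
  · rw [F0_eq_zero x0 x1 x2 x3 h, abs_zero]
    exact le_trans (abs_nonneg _) (hC x0.2 x0.2 x0.2 x0.2)
  · unfold F0
    rw [finsum_eq_single _ w h]
    exact hC _ _ _ _

theorem F0_cocycle (hV : VZero V)
    (hc : ∀ a b c d e, V b c d e - V a c d e + V a b d e - V a b c e + V a b c d = 0)
    (x0 x1 x2 x3 x4 : RW P × P) :
    F0 V x1 x2 x3 x4 - F0 V x0 x2 x3 x4 + F0 V x0 x1 x3 x4 - F0 V x0 x1 x2 x4
      + F0 V x0 x1 x2 x3 = 0 := by
  unfold F0
  have f0 := F0_finite hV x1 x2 x3 x4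
  have f1 := F0_finite hV x0 x2 x3 x4
  have f2 := F0_finite hV x0 x1 x3 x4
  have f3 := F0_finite hV x0 x1 x2 x4
  have f4 := F0_finite hV x0 x1 x2 x3
  have g1 : (Function.support fun w : EW P =>
      V (pw w.1 x1) (pw w.1 x2) (pw w.1 x3) (pw w.1 x4)
        - V (pw w.1 x0) (pw w.1 x2) (pw w.1 x3) (pw w.1 x4)).Finite :=
    Set.Finite.subset (f0.union f1) (Function.support_sub _ _)
  have g2 : (Function.support fun w : EW P =>
      V (pw w.1 x1) (pw w.1 x2) (pw w.1 x3) (pw w.1 x4)
        - V (pw w.1 x0) (pw w.1 x2) (pw w.1 x3) (pw w.1 x4)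
        + V (pw w.1 x0) (pw w.1 x1) (pw w.1 x3) (pw w.1 x4)).Finite :=
    Set.Finite.subset (g1.union f2) (Function.support_add _ _)
  have g3 : (Function.support fun w : EW P =>
      V (pw w.1 x1) (pw w.1 x2) (pw w.1 x3) (pw w.1 x4)
        - V (pw w.1 x0) (pw w.1 x2) (pw w.1 x3) (pw w.1 x4)
        + V (pw w.1 x0) (pw w.1 x1) (pw w.1 x3) (pw w.1 x4)
        - V (pw w.1 x0) (pw w.1 x1) (pw w.1 x2) (pw w.1 x4)).Finite :=
    Set.Finite.subset (g2.union f3) (Function.support_sub _ _)
  rw [← finsum_sub_distrib f0 f1, ← finsum_add_distrib g1 f2, ← finsum_sub_distrib g2 f3,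
    ← finsum_add_distrib g3 f4]
  rw [finsum_congr (fun w => hc _ _ _ _ _)]
  simp

end cocycle

section group

variable [DecidableEq P]

/-- The group of symmetries: pairs (permutation of the pieces, permutation of the points)
compatible with the positions, with the parity and with `V`. -/
def GG (V : P → P → P → P → ℝ) : Subgroup (Equiv.Perm (RW P) × Equiv.Perm P) where
  carrier := {g | (∀ (w u : RW P) (z : P), pw (g.1 w) (g.1 u, g.2 z) = g.2 (pw w (u, z))) ∧
    (∀ w : RW P, Even (g.1 w).1.length ↔ Even w.1.length) ∧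
    ∀ a b c d, V (g.2 a) (g.2 b) (g.2 c) (g.2 d) = V a b c d}
  mul_mem' := by
    rintro g h ⟨hg1, hg2, hg3⟩ ⟨hh1, hh2, hh3⟩
    refine ⟨fun w u z => ?_, fun w => ?_, fun a b c d => ?_⟩
    · change pw (g.1 (h.1 w)) (g.1 (h.1 u), g.2 (h.2 z)) = g.2 (h.2 (pw w (u, z)))
      rw [hg1, hh1]
    · change Even (g.1 (h.1 w)).1.length ↔ _
      rw [hg2, hh2]
    · change V (g.2 (h.2 a)) (g.2 (h.2 b)) (g.2 (h.2 c)) (g.2 (h.2 d)) = _
      rw [hg3, hh3]
  one_mem' := ⟨fun _ _ _ => rfl, fun _ => Iff.rfl, fun _ _ _ _ => rfl⟩
  inv_mem' := by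
    rintro g ⟨hg1, hg2, hg3⟩
    refine ⟨fun w u z => ?_, fun w => ?_, fun a b c d => ?_⟩
    · have := hg1 (g.1.symm w) (g.1.symm u) (g.2.symm z)
      simp only [Equiv.apply_symm_apply] at this
      change pw (g.1.symm w) (g.1.symm u, g.2.symm z) = g.2.symm (pw w (u, z))
      rw [this, Equiv.symm_apply_apply]
    · have := hg2 (g.1.symm w)
      rw [Equiv.apply_symm_apply] at this
      exact this.symm
    · have := hg3 (g.2.symm a) (g.2.symm b) (g.2.symm c) (g.2.symm d)
      simp only [Equiv.apply_symm_apply] at this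
      exact this.symm

variable {V : P → P → P → P → ℝ}

/-- The action of the group on the points. -/
def act (g : GG V) (x : RW P × P) : RW P × P := (g.1.1 x.1, g.1.2 x.2)

@[simp] theorem act_one (x : RW P × P) : act (1 : GG V) x = x := rfl

theorem act_mul (g h : GG V) (x : RW P × P) : act (g * h) x = act g (act h x) := rfl

theorem F0_act (g : GG V) (x0 x1 x2 x3 : RW P × P) :
    F0 V (act g x0) (act g x1) (act g x2) (act g x3) = F0 V x0 x1 x2 x3 := by
  obtain ⟨g, hg1, hg2, hg3⟩ := g
  let e : EW P ≃ EW P :=
    { toFun := fun w => ⟨g.1 w.1, (hg2 w.1).2 w.2⟩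
      invFun := fun w => ⟨g.1.symm w.1, by
        have := hg2 (g.1.symm w.1)
        rw [Equiv.apply_symm_apply] at this
        exact this.1 w.2⟩
      left_inv := fun w => Subtype.ext (Equiv.symm_apply_apply g.1 w.1)
      right_inv := fun w => Subtype.ext (Equiv.apply_symm_apply g.1 w.1) }
  unfold F0
  rw [← finsum_comp_equiv e]
  refine finsum_congr fun w => ?_
  have h1 : ∀ x : RW P × P, pw (e w).1 (act ⟨g, hg1, hg2, hg3⟩ x) = g.2 (pw w.1 x) :=
    fun x => hg1 w.1 x.1 x.2
  rw [h1, h1, h1, h1, hg3]

/-- The reflection of the tree through the wall `x` of the base piece. -/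
def sPerm (x : P) : Equiv.Perm (RW P) where
  toFun w := ⟨sw x w.1, red_sw x w.2⟩
  invFun w := ⟨sw x w.1, red_sw x w.2⟩
  left_inv w := Subtype.ext (sw_sw w.2)
  right_inv w := Subtype.ext (sw_sw w.2)

theorem sPerm_mul_self (x : P) : sPerm x * sPerm x = 1 := by
  ext w
  exact Subtype.ext (sw_sw w.2)

omit [DecidableEq P] in
theorem red_map (f : Equiv.Perm P) {w : List P} (h : Red w) : Red (w.map f) := by
  unfold Red at *
  rw [List.isChain_map]
  exact h.imp (fun a b hab h2 => hab (f.injective h2))

/-- The action of a permutation of the points on the pieces. -/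
def mPerm (f : Equiv.Perm P) : Equiv.Perm (RW P) where
  toFun w := ⟨w.1.map f, red_map f w.2⟩
  invFun w := ⟨w.1.map f.symm, red_map f.symm w.2⟩
  left_inv w := Subtype.ext (by simp)
  right_inv w := Subtype.ext (by simp)

omit [DecidableEq P] in
theorem mPerm_mul (f g : Equiv.Perm P) : mPerm (f * g) = mPerm f * mPerm g := by
  ext w
  apply Subtype.ext
  change w.1.map (f * g) = (w.1.map g).map f
  simp

theorem mPerm_sPerm (f : Equiv.Perm P) (x : P) :
    mPerm f * sPerm x = sPerm (f x) * mPerm f := by
  ext w
  exact Subtype.ext (map_sw f.injective x w.1)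

/-- `s_x * f * s_y`. -/
def lab (x : P) (f : Equiv.Perm P) (y : P) : Equiv.Perm (RW P) × Equiv.Perm P :=
  (sPerm x * mPerm f * sPerm y, f)

/-- `f`. -/
def lab0 (f : Equiv.Perm P) : Equiv.Perm (RW P) × Equiv.Perm P := (mPerm f, f)

theorem lab0_mem {f : Equiv.Perm P} (hf : ∀ a b c d, V (f a) (f b) (f c) (f d) = V a b c d) :
    lab0 f ∈ GG V := by
  refine ⟨fun w u z => pr_map f.injective w.1 u.1 z, fun w => ?_, hf⟩
  change Even (w.1.map f).length ↔ _
  rw [List.length_map]

theorem lab_mem {f : Equiv.Perm P} (hf : ∀ a b c d, V (f a) (f b) (f c) (f d) = V a b c d)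
    (x y : P) : lab x f y ∈ GG V := by
  refine ⟨fun w u z => ?_, fun w => ?_, hf⟩
  · change pr (sw x ((sw y w.1).map f)) (sw x ((sw y u.1).map f)) (f z) = f (pr w.1 u.1 z)
    rw [pr_sw x (red_map f (red_sw y w.2)) (red_map f (red_sw y u.2)), pr_map f.injective,
      pr_sw y w.2 u.2]
  · change Even (sw x ((sw y w.1).map f)).length ↔ _
    rw [even_length_sw, List.length_map, even_length_sw, not_not]

theorem lab0_mul (f g : Equiv.Perm P) : lab0 f * lab0 g = lab0 (f * g) := by
  unfold lab0
  rw [mPerm_mul]
  rfl

theorem lab_mul (x y z : P) (f g : Equiv.Perm P) : lab x f y * lab y g z = lab x (f * g) z := by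
  unfold lab
  rw [mPerm_mul]
  refine Prod.ext ?_ rfl
  change sPerm x * mPerm f * sPerm y * (sPerm y * mPerm g * sPerm z)
    = sPerm x * (mPerm f * mPerm g) * sPerm z
  calc sPerm x * mPerm f * sPerm y * (sPerm y * mPerm g * sPerm z)
      = sPerm x * mPerm f * (sPerm y * sPerm y) * mPerm g * sPerm z := by group
    _ = _ := by rw [sPerm_mul_self]; group

/-- On the boundary the two labels agree. -/
theorem lab_eq_lab0 {f : Equiv.Perm P} {x y : P} (h : f y = x) : lab x f y = lab0 f := by
  unfold lab lab0
  refine Prod.ext ?_ rfl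
  change sPerm x * mPerm f * sPerm y = mPerm f
  rw [mul_assoc, mPerm_sPerm, h, ← mul_assoc, sPerm_mul_self, one_mul]

end group

end Helper69.CX
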